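import Pool.Agent.Y494.PK.Stm

/-!
Project PK (MP_490135_co): covers with one hub alone.
-/

namespace Pool.Agent.Y494.PK

open Classical

theorem circ0 (hE2 : S_E2) : S_CIRC0 := by
  intro Q _ l R v hl hcard hNT hv
  obtain ⟨m, rfl⟩ : ∃ m, l = m + 1 := ⟨l - 1, by omega⟩
  have hm : 2 ≤ m := by omega
  -- the subtype
  let Q' := {q : Q // q ≠ v}
  have hcard' : Fintype.card Q' = m := by
    have h := Fintype.card_subtype_compl (fun q : Q => q = v)
    rw [Fintype.card_subtype_eq, hcard] at h
    calc Fintype.card Q' = Fintype.card {q : Q // ¬ (q = v)} := Fintype.card_congr (Equiv.refl _)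
      _ = m := by rw [h]; omega
  let R' : SimpleGraph Q' := R.comap Subtype.val
  -- extension of a sequence by v in front
  have hext : ∀ e : Fin m ≃ Q', ∃ f : Fin (m + 1) ≃ Q, f 0 = v ∧ ∀ j : Fin m, f j.succ = (e j : Q) := by
    intro e
    have hinj : Function.Injective (Fin.cons v (fun j => (e j : Q)) : Fin (m + 1) → Q) := by
      rw [Fin.cons_injective_iff]
      refine ⟨?_, fun a b h => e.injective (Subtype.ext h)⟩
      rintro ⟨j, hj⟩
      exact (e j).2 hj
    have hbij : Function.Bijective (Fin.cons v (fun j => (e j : Q)) : Fin (m + 1) → Q) := by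
      rw [Fintype.bijective_iff_injective_and_card]
      exact ⟨hinj, by simp [hcard]⟩
    exact ⟨Equiv.ofBijective _ hbij, rfl, fun j => rfl⟩
  have hrev : ∀ e : Fin m ≃ Q', ∃ f : Fin (m + 1) ≃ Q, f (Fin.last m) = v ∧
      ∀ j : Fin m, f j.castSucc = (e j : Q) := by
    intro e
    have hinj : Function.Injective (Fin.snoc (α := fun _ => Q) (fun j => (e j : Q)) v) := by
      rw [Fin.snoc_injective_iff]
      refine ⟨fun a b h => e.injective (Subtype.ext h), ?_⟩
      rintro ⟨j, hj⟩
      exact (e j).2 hj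
    have hbij : Function.Bijective (Fin.snoc (α := fun _ => Q) (fun j => (e j : Q)) v) := by
      rw [Fintype.bijective_iff_injective_and_card]
      exact ⟨hinj, by simp [hcard]⟩
    exact ⟨Equiv.ofBijective _ hbij, by simp, fun j => by simp⟩
  obtain ⟨w, hw⟩ := hv
  have hwv : w ≠ v := hw.ne'
  have hmain := hE2 Q' m R' Set.univ {q | R.Adj v (q : Q)} hm hcard' ⟨⟨w, hwv⟩, hw⟩ (by
    intro e he _ j hj hmem
    obtain ⟨f, hf1, hf2⟩ := hrev e
    refine hNT f ?_
    intro a b hab
    rcases Fin.eq_castSucc_or_eq_last a with ⟨a', rfl⟩ | rfl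
    · rcases Fin.eq_castSucc_or_eq_last b with ⟨b', rfl⟩ | rfl
      · rw [hf2, hf2]
        exact he a' b' (by simpa using hab)
      · have : a' = j := by
          apply Fin.ext
          simp at hab
          omega
        subst this
        rw [hf1, hf2]
        exact (show R.Adj v (e a' : Q) from hmem).symm
    · simp at hab
      omega)
  rw [show m + 1 - 2 = m - 1 by omega]
  refine le_trans ?_ hmain
  -- the injection
  have hrest : ∀ e : Fin (m + 1) ≃ Q, (∀ j : Fin (m + 1), (j : ℕ) = 0 → e j = v) →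
      ∃ e' : Fin m ≃ Q', ∀ j, ((e' j : Q') : Q) = e j.succ := by
    intro e he
    have hne : ∀ j : Fin m, e j.succ ≠ v := by
      intro j h
      have h0 := he 0 rfl
      have := e.injective (h.trans h0.symm)
      exact Fin.succ_ne_zero j this
    have hinj : Function.Injective (fun j : Fin m => (⟨e j.succ, hne j⟩ : Q')) := by
      intro a b h
      have := e.injective (Subtype.ext_iff.1 h)
      exact Fin.succ_injective _ this
    have hbij : Function.Bijective (fun j : Fin m => (⟨e j.succ, hne j⟩ : Q')) := by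
      rw [Fintype.bijective_iff_injective_and_card]
      exact ⟨hinj, by rw [Fintype.card_fin, hcard']⟩
    exact ⟨Equiv.ofBijective _ hbij, fun j => rfl⟩
  have hnon : Nonempty (Fin m ≃ Q') := ⟨Fintype.equivOfCardEq (by rw [Fintype.card_fin, hcard'])⟩
  choose! F hF using hrest
  apply Set.ncard_le_ncard_of_injOn F
  · rintro e ⟨hcov, h0⟩
    refine ⟨?_, fun _ _ => trivial⟩
    intro a b hab
    show R.Adj ((F e a : Q') : Q) ((F e b : Q') : Q)
    rw [hF e h0, hF e h0]
    apply hcov.2
    · simp [hab]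
    · simp
  · rintro e ⟨_, h0⟩ e' ⟨_, h0'⟩ h
    apply Equiv.ext
    intro j
    refine Fin.cases ?_ (fun j => ?_) j
    · rw [h0 0 rfl, h0' 0 rfl]
    · rw [← hF e h0, ← hF e' h0', h]

end Pool.Agent.Y494.PK
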