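import Pool.Agent.Y494.PK.Stm

/-!
Project PK (MP_490135_co): the final inequality.
-/

namespace Pool.Agent.Y494.PK

theorem amgm1 (n : ℕ) (t : ℝ) (ht : 0 ≤ t) : ((n : ℝ) + 1) * t ^ n ≤ n * t ^ (n + 1) + 1 := by
  induction n with
  | zero => simp
  | succ n ih =>
    have h : 0 ≤ (t - 1) * (t ^ (n + 1) - 1) := by
      rcases le_total t 1 with h | h
      · have : t ^ (n + 1) ≤ 1 := pow_le_one₀ ht h
        nlinarith
      · have : 1 ≤ t ^ (n + 1) := one_le_pow₀ h
        nlinarith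
    have h2 := mul_le_mul_of_nonneg_left ih ht
    push_cast
    have e1 : t * (((n : ℝ) + 1) * t ^ n) = ((n : ℝ) + 1) * t ^ (n + 1) := by ring
    have e2 : t * ((n : ℝ) * t ^ (n + 1) + 1) = (n : ℝ) * t ^ (n + 2) + t := by ring
    have e3 : (t - 1) * (t ^ (n + 1) - 1) = t ^ (n + 2) - t ^ (n + 1) - t + 1 := by ring
    rw [e1, e2] at h2
    rw [e3] at h
    have e4 : t ^ (n + 1 + 1) = t ^ (n + 2) := rfl
    rw [e4]
    linarith

theorem amgm2 (n : ℕ) (g A : ℝ) (hg : 0 ≤ g) (hA : 0 ≤ A) :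
    ((n : ℝ) + 1) * g ^ n * A ≤ n * g ^ (n + 1) + A ^ (n + 1) := by
  rcases hA.eq_or_lt with h | h
  · rw [← h]; simp only [mul_zero]; positivity
  · have h1 := amgm1 n (g / A) (by positivity)
    have h2 : 0 < A ^ (n + 1) := by positivity
    have h3 := mul_le_mul_of_nonneg_right h1 h2.le
    have e1 : ((n : ℝ) + 1) * (g / A) ^ n * A ^ (n + 1) = ((n : ℝ) + 1) * g ^ n * A := by
      rw [div_pow]; field_simp; ring
    have e2 : ((n : ℝ) * (g / A) ^ (n + 1) + 1) * A ^ (n + 1) = n * g ^ (n + 1) + A ^ (n + 1) := by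
      rw [div_pow]; field_simp
    rw [e1, e2] at h3
    exact h3

theorem fin : S_FIN := by
  intro r hr ι s g a b k1 k' k'' ha hb hg hsum hk0 hk1 hk' hkk hk''
  have hr3 : (3 : ℝ) ≤ r := by exact_mod_cast hr
  have hr0 : (0 : ℝ) < r := by linarith
  have hS : 0 ≤ ∑ i ∈ s, g i := Finset.sum_nonneg hg
  obtain ⟨A, hA⟩ : ∃ A, A = 1 - a := ⟨_, rfl⟩
  have hA0 : 0 ≤ A := by linarith
  have hA1 : A ≤ 1 := by linarith
  have hbA : b ≤ A := by linarith
  have hsA : b + ∑ i ∈ s, g i ≤ A := by linarith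
  obtain ⟨m, rfl⟩ : ∃ m, r = m + 1 := ⟨r - 1, by omega⟩
  have hm : (2 : ℝ) ≤ m := by push_cast at hr3; linarith
  have hm0 : (0 : ℝ) < m := by linarith
  obtain ⟨P, hP⟩ : ∃ P, P = k1 * (((m : ℝ) + 1) + 1) * a := ⟨_, rfl⟩
  have hP0 : 0 ≤ P := by rw [hP]; positivity
  obtain ⟨B, hB⟩ : ∃ B, B = (((m : ℝ) + 1) + 1) * a * A ^ m / ((m : ℝ) + 1) := ⟨_, rfl⟩
  have hB0 : 0 ≤ B := by rw [hB]; positivity
  have hk''0 : 0 < k'' := by linarith
  -- the one variable bound
  have hf : ∀ x, 0 ≤ x → x ≤ A → x ^ m * (P - k' * x) ≤ max (A ^ m * (P - k' * A)) B := by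
    intro x hx0 hxA
    by_cases hc : ((m : ℝ) + 1) * k' * A ≤ m * P
    · apply le_max_of_le_left
      have h1 := amgm2 m x A hx0 hA0
      have h2 : x ^ m ≤ A ^ m := pow_le_pow_left₀ hx0 hxA m
      -- m P (A^m - x^m) >= (m+1) k' A (A^m - x^m) >= m k' (A^(m+1) - x^(m+1))
      have h3 := mul_le_mul_of_nonneg_right hc (sub_nonneg.2 h2)
      have e1 : x ^ (m + 1) = x ^ m * x := pow_succ _ _
      have e2 : A ^ (m + 1) = A ^ m * A := pow_succ _ _
      rw [e1, e2] at h1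
      have h4 : k' * (((m : ℝ) + 1) * x ^ m * A) ≤ k' * (m * (x ^ m * x) + A ^ m * A) :=
        mul_le_mul_of_nonneg_left h1 hk'.le
      have h5 : (m : ℝ) * (x ^ m * (P - k' * x)) ≤ m * (A ^ m * (P - k' * A)) := by
        nlinarith
      exact le_of_mul_le_mul_left h5 hm0
    · push Not at hc
      apply le_max_of_le_right
      obtain ⟨g0, hg0⟩ : ∃ g0, g0 = m * P / (((m : ℝ) + 1) * k') := ⟨_, rfl⟩
      have hg00 : 0 ≤ g0 := by rw [hg0]; positivity
      have hg0A : g0 ≤ A := by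
        rw [hg0, div_le_iff₀ (by positivity)]
        linarith
      have hPg : m * P = ((m : ℝ) + 1) * k' * g0 := by
        rw [hg0]; field_simp
      have h1 := amgm2 m x g0 hx0 hg00
      have h4 := mul_le_mul_of_nonneg_left h1 hk'.le
      have e1 : x ^ (m + 1) = x ^ m * x := pow_succ _ _
      have e2 : g0 ^ (m + 1) = g0 ^ m * g0 := pow_succ _ _
      rw [e1, e2] at h4
      have h5 : (m : ℝ) * (x ^ m * (P - k' * x)) ≤ m * (g0 ^ m * P / ((m : ℝ) + 1)) := by
        have e3 : m * (g0 ^ m * P / ((m : ℝ) + 1)) = g0 ^ m * (m * P) / ((m : ℝ) + 1) := by ring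
        have e4 : g0 ^ m * (m * P) / ((m : ℝ) + 1) = k' * (g0 ^ m * g0) := by
          rw [hPg]; field_simp
        rw [e3, e4]
        have e5 : (m : ℝ) * (x ^ m * (P - k' * x)) = x ^ m * (m * P) - k' * (m * (x ^ m * x)) := by
          ring
        rw [e5, hPg]
        linarith
      have h6 := le_of_mul_le_mul_left h5 hm0
      refine h6.trans ?_
      have h7 : g0 ^ m ≤ A ^ m := pow_le_pow_left₀ hg00 hg0A m
      rw [hB, hP]
      have h8 : k1 * (((m : ℝ) + 1) + 1) * a ≤ (((m : ℝ) + 1) + 1) * a := by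
        have : 0 ≤ (((m : ℝ) + 1) + 1) * a := by positivity
        nlinarith
      apply div_le_div_of_nonneg_right _ (by positivity)
      calc g0 ^ m * (k1 * (((m : ℝ) + 1) + 1) * a) ≤ A ^ m * ((((m : ℝ) + 1) + 1) * a) := by
            apply mul_le_mul h7 h8 (by positivity) (by positivity)
        _ = (((m : ℝ) + 1) + 1) * a * A ^ m := by ring
  -- the three final bounds
  have hrho : (((m : ℝ) + 1) + 1) * a * A ^ (m + 1) ≤ rho (m + 1) := by
    unfold rho
    push_cast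
    obtain ⟨c, hc⟩ : ∃ c, c = ((m : ℝ) + 1) / (((m : ℝ) + 1) + 1) := ⟨_, rfl⟩
    have hc0 : 0 < c := by rw [hc]; positivity
    rw [← hc]
    have h1 := amgm2 (m + 1) A c hA0 hc0.le
    push_cast at h1
    have hmc : ((m : ℝ) + 1) = (((m : ℝ) + 1) + 1) * c := by rw [hc]; field_simp
    have e2 : c ^ (m + 1 + 1) = c * c ^ (m + 1) := by ring
    have e3 : A ^ (m + 1 + 1) = A * A ^ (m + 1) := by ring
    rw [e2, e3] at h1
    have e4 : ((m : ℝ) + 1) * (A * A ^ (m + 1)) = c * ((((m : ℝ) + 1) + 1) * (A * A ^ (m + 1))) := by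
      calc ((m : ℝ) + 1) * (A * A ^ (m + 1)) = ((((m : ℝ) + 1) + 1) * c) * (A * A ^ (m + 1)) := by
            rw [← hmc]
        _ = _ := by ring
    rw [e4] at h1
    have h2 : c * ((((m : ℝ) + 1) + 1) * A ^ (m + 1)) ≤
        c * ((((m : ℝ) + 1) + 1) * (A * A ^ (m + 1)) + c ^ (m + 1)) := by linarith
    have h3 := le_of_mul_le_mul_left h2 hc0
    have ha' : a = 1 - A := by linarith
    rw [ha']
    linarith
  have hber : A ^ (m + 1) * (1 + ((m : ℝ) + 1) * a) ≤ 1 := by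
    have h1 := amgm1 (m + 1) A hA0
    push_cast at h1
    have e3 : A ^ (m + 1 + 1) = A * A ^ (m + 1) := by ring
    rw [e3] at h1
    have ha' : a = 1 - A := by linarith
    rw [ha']
    linarith
  have hpow0 : 0 ≤ A ^ (m + 1) := by positivity
  have hpow1 : A ^ (m + 1) ≤ 1 := pow_le_one₀ hA0 hA1
  have hpow2 : A ^ (m + 1 + 1) = A * A ^ (m + 1) := by ring
  have hpow3 : A ^ (m + 1 + 1) ≤ 1 := pow_le_one₀ hA0 hA1
  have hpow4 : A ^ (m + 1) = A * A ^ m := by ring
  have hM : k'' * A ^ (m + 1 + 1) + A * max (A ^ m * (P - k' * A)) B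
      ≤ max (k1 * rho (m + 1) + (k'' - k')) k'' := by
    rcases le_total (A ^ m * (P - k' * A)) B with h | h
    · rw [max_eq_right h]
      apply le_max_of_le_right
      have e1 : k'' * A ^ (m + 1 + 1) + A * B
          = A ^ (m + 1) * (k'' * A + (((m : ℝ) + 1) + 1) * a / ((m : ℝ) + 1)) := by
        rw [hB, hpow2, hpow4]; ring
      rw [e1]
      have h1 : k'' * A + (((m : ℝ) + 1) + 1) * a / ((m : ℝ) + 1)
          ≤ k'' * (1 + ((m : ℝ) + 1) * a) := by
        have ha' : A = 1 - a := hA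
        rw [ha']
        have h2 : (((m : ℝ) + 1) + 1) * a / ((m : ℝ) + 1) ≤ k'' * ((((m : ℝ) + 1) + 1) * a) := by
          rw [div_eq_mul_one_div, mul_comm]
          apply mul_le_mul_of_nonneg_right _ (by positivity)
          push_cast at hk''
          exact hk''
        linarith
      calc A ^ (m + 1) * (k'' * A + (((m : ℝ) + 1) + 1) * a / ((m : ℝ) + 1))
          ≤ A ^ (m + 1) * (k'' * (1 + ((m : ℝ) + 1) * a)) :=
            mul_le_mul_of_nonneg_left h1 hpow0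
        _ = k'' * (A ^ (m + 1) * (1 + ((m : ℝ) + 1) * a)) := by ring
        _ ≤ k'' * 1 := mul_le_mul_of_nonneg_left hber hk''0.le
        _ = k'' := mul_one _
    · rw [max_eq_left h]
      apply le_max_of_le_left
      have e1 : k'' * A ^ (m + 1 + 1) + A * (A ^ m * (P - k' * A))
          = (k'' - k') * A ^ (m + 1 + 1) + k1 * ((((m : ℝ) + 1) + 1) * a * A ^ (m + 1)) := by
        rw [hP, hpow2, hpow4]; ring
      rw [e1]
      have h1 : (k'' - k') * A ^ (m + 1 + 1) ≤ (k'' - k') * 1 :=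
        mul_le_mul_of_nonneg_left hpow3 (by linarith)
      have h2 := mul_le_mul_of_nonneg_left hrho hk0
      linarith
  refine le_trans ?_ hM
  have hmax0 : 0 ≤ max (A ^ m * (P - k' * A)) B := le_max_of_le_right hB0
  have h1 : ∑ i ∈ s, g i * (g i ^ m * (P - k' * g i)) ≤
      (∑ i ∈ s, g i) * max (A ^ m * (P - k' * A)) B := by
    rw [Finset.sum_mul]
    apply Finset.sum_le_sum
    intro i hi
    apply mul_le_mul_of_nonneg_left _ (hg i hi)
    apply hf _ (hg i hi)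
    have : g i ≤ ∑ i ∈ s, g i := Finset.single_le_sum hg hi
    linarith
  have h2 : (((m : ℝ) + 1) + 1) * a * b ^ (m + 1) / ((m : ℝ) + 1) ≤
      b * max (A ^ m * (P - k' * A)) B := by
    have h3 : b ^ m ≤ A ^ m := pow_le_pow_left₀ hb hbA m
    have h4 : (((m : ℝ) + 1) + 1) * a * b ^ (m + 1) / ((m : ℝ) + 1)
        = b * ((((m : ℝ) + 1) + 1) * a * b ^ m / ((m : ℝ) + 1)) := by ring
    rw [h4]
    apply mul_le_mul_of_nonneg_left _ hb
    apply le_max_of_le_right
    rw [hB]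
    apply div_le_div_of_nonneg_right _ (by positivity)
    apply mul_le_mul_of_nonneg_left h3 (by positivity)
  have h5 : (∑ i ∈ s, g i) * max (A ^ m * (P - k' * A)) B + b * max (A ^ m * (P - k' * A)) B
      ≤ A * max (A ^ m * (P - k' * A)) B := by
    rw [← add_mul]
    apply mul_le_mul_of_nonneg_right _ hmax0
    linarith
  have h6 : ∑ i ∈ s, g i * (g i ^ m * (P - k' * g i)) =
      P * ∑ i ∈ s, g i ^ (m + 1) - k' * ∑ i ∈ s, g i ^ (m + 1 + 1) := by
    rw [Finset.mul_sum, Finset.mul_sum, ← Finset.sum_sub_distrib]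
    apply Finset.sum_congr rfl
    intro i _
    ring
  rw [h6] at h1
  push_cast
  rw [← hA]
  have h7 : (((m : ℝ) + 1) + 1) * a * (k1 * ∑ i ∈ s, g i ^ (m + 1) + b ^ (m + 1) / ((m : ℝ) + 1))
      = P * ∑ i ∈ s, g i ^ (m + 1) + (((m : ℝ) + 1) + 1) * a * b ^ (m + 1) / ((m : ℝ) + 1) := by
    rw [hP]; ring
  rw [h7]
  linarith

end Pool.Agent.Y494.PK
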