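import Pool.Agent.Y494.PK.Stm2

/-!
Project PK (MP_490135_co): bounds for tuples with special lows.
-/

namespace Pool.Agent.Y494.PK

open Classical

theorem nE_zero_of_sg (hSGE : S_SGE) {V : Type} [Fintype V] (G : SimpleGraph V) (r : ℕ)
    (S L : Set V) (henv : Env G (r + 1) S L) (x : Fin (r + 1) → V) (j : Fin (r + 1))
    (hj : Sg G (r + 1) S L (x j)) : nE G r S L x = 0 := by
  unfold nE
  rw [Set.ncard_eq_zero (Set.toFinite _)]
  apply Set.eq_empty_of_forall_notMem
  rintro ⟨t, h⟩ hp
  refine (hSGE V G r S L henv).1 (x ∘ t) h hp (t⁻¹ j) ?_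
  simpa using hj

theorem nM_zero_of_sg (hSGE : S_SGE) {V : Type} [Fintype V] (G : SimpleGraph V) (r : ℕ)
    (S L : Set V) (henv : Env G (r + 1) S L) (x : Fin (r + 1) → V) (j : Fin (r + 1))
    (hj : Sg G (r + 1) S L (x j)) : nM G r S L x = 0 := by
  unfold nM
  rw [Set.ncard_eq_zero (Set.toFinite _)]
  apply Set.eq_empty_of_forall_notMem
  rintro ⟨t, h, a⟩ hp
  refine (hSGE V G r S L henv).2 (x ∘ t) h a hp (t⁻¹ j) ?_
  simpa using hj

theorem k1 (hSG1 : S_SG1) (hSGE : S_SGE) : S_k1 := by
  intro V _ G r S L henv x j k hjk hj hk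
  have hr : 3 ≤ r := by have := henv.hl; omega
  have h1 : n1 G r S L x = 0 := by
    unfold n1
    rw [Set.ncard_eq_zero (Set.toFinite _)]
    apply Set.eq_empty_of_forall_notMem
    rintro ⟨t, h, i⟩ hp
    obtain ⟨_, h1⟩ := hSG1 V G r S L henv (x ∘ t) h i hp (t⁻¹ j) (by simpa using hj)
    obtain ⟨_, h2⟩ := hSG1 V G r S L henv (x ∘ t) h i hp (t⁻¹ k) (by simpa using hk)
    have hne : t⁻¹ j ≠ t⁻¹ k := fun h => hjk ((t⁻¹).injective h)
    have hne' : ((t⁻¹ j : Fin (r + 1)) : ℕ) ≠ ((t⁻¹ k : Fin (r + 1)) : ℕ) :=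
      fun h => hne (Fin.ext h)
    omega
  rw [br, h1, nE_zero_of_sg hSGE G r S L henv x j hj, nM_zero_of_sg hSGE G r S L henv x j hj]
  simp

theorem k2a (hTQS : S_TQS) (hSC1 : S_SC1) : S_k2a := by
  intro V _ G r S L α henv hdeg hrich x j hj
  have hr : 3 ≤ r := by have := henv.hl; omega
  have hr3 : (3 : ℝ) ≤ r := by exact_mod_cast hr
  have hr0 : (0 : ℝ) < r := by linarith
  have hone : 0 ≤ 1 - 1 / (r : ℝ) := by
    have : 1 / (r : ℝ) ≤ 1 := by rw [div_le_one hr0]; linarith
    linarith
  by_cases hb : br G r S L x = 0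
  · rw [hb]; positivity
  obtain ⟨v, Q, hvS, hviso, hvQ, hQS, hQc, hk, hcov, hreach, hclq, hbr, hend⟩ :=
    hTQS V G r S L henv x j hj hb
  haveI : Fintype Q := Fintype.ofFinite Q
  have hcard : Fintype.card Q = r := by
    rw [← Nat.card_eq_fintype_card, Nat.card_coe_set_eq]; exact hQc
  have h := hSC1 Q r {q | G.Adj v (q : V)} (TQ G S (fun k => x (j.succAbove k)) Q) (by omega)
    hcard (by
      by_contra hcon
      push Not at hcon
      obtain ⟨hA, k0, hT⟩ := hcon
      apply hrich
      refine ⟨Q.toFinset, v, ?_, ?_, ?_, ?_, ?_⟩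
      · rw [Set.toFinset_card]; simpa using hcard
      · simpa using hvQ
      · intro c hc
        have hc' : c ∈ Q := by simpa using hc
        have : (⟨c, hc'⟩ : Q) ∈ ({q | G.Adj v (q : V)} : Set Q) := by rw [hA]; trivial
        exact this
      · have hcl := (hk (j.succAbove k0) (Fin.succAbove_ne j k0)).1
        have hsub : {y | y ∈ L ∧ Ty G S y = Ty G S (x (j.succAbove k0))} ⊆
            {x : V | ∀ c ∈ Q.toFinset, G.Adj x c} := by
          rintro y ⟨_, hy⟩ c hc
          have hc' : c ∈ Q := by simpa using hc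
          have : (⟨c, hc'⟩ : Q) ∈ TQ G S (fun k => x (j.succAbove k)) Q k0 := by
            rw [hT]; trivial
          have h2 : c ∈ Ty G S (x (j.succAbove k0)) := this
          rw [← hy] at h2
          exact h2.2.symm
        have := Set.ncard_le_ncard hsub (Set.toFinite _)
        have h3 := hcl.2
        omega
      · have := hdeg v hvS
        rw [Nat.card_eq_fintype_card]
        exact this)
  have h' : (r : ℝ) * (MS (TQ G S (fun k => x (j.succAbove k)) Q) {q | G.Adj v (q : V)} : ℝ) ≤
      ((r : ℝ) - 1) * (r.factorial : ℝ) ^ 2 := by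
    have h2 : ((r * MS (TQ G S (fun k => x (j.succAbove k)) Q) {q | G.Adj v (q : V)} : ℕ) : ℝ)
      ≤ (((r - 1) * r.factorial ^ 2 : ℕ) : ℝ) := by exact_mod_cast h
    push_cast [Nat.cast_sub (show 1 ≤ r by omega)] at h2
    exact h2
  refine hbr.trans ?_
  rw [show (1 - 1 / (r : ℝ)) * (r.factorial : ℝ) ^ 2 = (((r : ℝ) - 1) * (r.factorial : ℝ) ^ 2) / r
    by field_simp]
  rw [le_div_iff₀ hr0]
  linarith

theorem lab_eq {V : Type} (G : SimpleGraph V) (l : ℕ) (S L Q : Set V) (y : V)
    (hsub : Ty G S y ⊆ Q) (hne : (Ty G S y).Nonempty)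
    (hreach : ∀ a ∈ Q, ∀ b ∈ Q, (HG G l S L).Reachable a b) :
    lab G l S L y = {b | ∃ a ∈ Q, (HG G l S L).Reachable a b} := by
  ext b
  constructor
  · rintro ⟨a, ha, hab⟩
    exact ⟨a, hsub ha, hab⟩
  · rintro ⟨a, ha, hab⟩
    obtain ⟨c, hc⟩ := hne
    exact ⟨c, hc, (hreach c (hsub hc) a ha).trans hab⟩

theorem k2b (hTQS : S_TQS) (hSC2 : S_SC2) : S_k2b := by
  intro V _ G r S L henv x j hj hnot
  have hr : 3 ≤ r := by have := henv.hl; omega
  have hr3 : (3 : ℝ) ≤ r := by exact_mod_cast hr
  have hr0 : (0 : ℝ) < r := by linarith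
  by_cases hb : br G r S L x = 0
  · rw [hb]; positivity
  obtain ⟨v, Q, hvS, hviso, hvQ, hQS, hQc, hk, hcov, hreach, hclq, hbr, hend⟩ :=
    hTQS V G r S L henv x j hj hb
  haveI : Fintype Q := Fintype.ofFinite Q
  have hcard : Fintype.card Q = r := by
    rw [← Nat.card_eq_fintype_card, Nat.card_coe_set_eq]; exact hQc
  obtain ⟨D, hDdef⟩ : ∃ D : Set V, D = {b | ∃ a ∈ Q, (HG G (r + 1) S L).Reachable a b} :=
    ⟨_, rfl⟩
  have hlab : ∀ k, k ≠ j → lab G (r + 1) S L (x k) = D := by
    intro k hkj
    obtain ⟨_, h2, h3⟩ := hk k hkj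
    rw [hDdef]
    exact lab_eq G (r + 1) S L Q (x k) h2 h3 hreach
  have hQD : Q ⊆ D := by
    intro q hq
    rw [hDdef]
    exact ⟨q, hq, SimpleGraph.Reachable.refl _⟩
  have hnG : ¬ Good G r S L D := fun h => hnot ⟨D, h, hlab⟩
  have hU : ∃ U : Set Q, U.Nonempty ∧ ∀ e : Fin r ≃ Q, Ham ((HG G (r + 1) S L).induce Q) e →
      (∀ s : Fin r, (s : ℕ) = 0 → e s ∈ ({q | G.Adj v (q : V)} : Set Q)) →
      ∀ s : Fin r, (s : ℕ) + 1 = r → e s ∉ U := by
    by_cases hDQ : D = Q
    · have : ∃ b ∈ D, PE G (r + 1) S L b := by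
        by_contra hcon
        push Not at hcon
        exact hnG ⟨by rw [hDQ]; exact hQc, hcon⟩
      obtain ⟨b, hbD, hbP⟩ := this
      have hbQ : b ∈ Q := by rw [← hDQ]; exact hbD
      refine ⟨{q | PE G (r + 1) S L (q : V)}, ⟨⟨b, hbQ⟩, hbP⟩, ?_⟩
      intro e he h0 s hs hmem
      exact (hend e he h0 s hs).1 hmem
    · obtain ⟨b', hb'D, hb'Q⟩ : ∃ b' ∈ D, b' ∉ Q := by
        by_contra hcon
        push Not at hcon
        exact hDQ (Set.Subset.antisymm hcon hQD)
      rw [hDdef] at hb'D
      obtain ⟨a, haQ, hab⟩ := hb'D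
      obtain ⟨p⟩ := hab
      obtain ⟨d, _, hd1, hd2⟩ := p.exists_boundary_dart Q haQ hb'Q
      refine ⟨{⟨d.fst, hd1⟩}, ⟨_, rfl⟩, ?_⟩
      intro e he h0 s hs hmem
      have hes : e s = ⟨d.fst, hd1⟩ := hmem
      have h2 := (hend e he h0 s hs).2 d.snd hd2
      rw [hes] at h2
      exact h2 d.adj
  obtain ⟨U, hUne, hUe⟩ := hU
  have h := hSC2 Q r ((HG G (r + 1) S L).induce Q) {q | G.Adj v (q : V)} U
    (TQ G S (fun k => x (j.succAbove k)) Q) (by omega) hcard hclq hUne hUe
  have h' : (MS (TQ G S (fun k => x (j.succAbove k)) Q) {q | G.Adj v (q : V)} : ℝ) ≤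
      ((r - 1).factorial : ℝ) * (r.factorial : ℝ) := by exact_mod_cast h
  refine hbr.trans (h'.trans (le_of_eq ?_))
  have hfac : (r.factorial : ℝ) = (r : ℝ) * ((r - 1).factorial : ℝ) := by
    have := Nat.mul_factorial_pred (show r ≠ 0 by omega)
    exact_mod_cast this.symm
  rw [hfac]
  field_simp

theorem k2c (hTQS : S_TQS) : S_k2c := by
  intro V _ G r S L henv x j hj hnot hex
  by_contra hb
  obtain ⟨v, Q, hvS, hviso, hvQ, hQS, hQc, hk, hcov, hreach, hclq, hbr, hend⟩ :=
    hTQS V G r S L henv x j hj hb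
  have hlab : ∀ k, k ≠ j → lab G (r + 1) S L (x k) =
      {b | ∃ a ∈ Q, (HG G (r + 1) S L).Reachable a b} := by
    intro k hkj
    obtain ⟨_, h2, h3⟩ := hk k hkj
    exact lab_eq G (r + 1) S L Q (x k) h2 h3 hreach
  obtain ⟨k, hkj, hgood⟩ := hex
  rw [hlab k hkj] at hgood
  exact hnot ⟨_, hgood, hlab⟩

theorem k3b (hTQ1 : S_TQ1) (hTQ2 : S_TQ2) : S_k3b := by
  intro V _ G r S L henv x ⟨D, hD, hlab⟩
  have hr : 3 ≤ r := by have := henv.hl; omega
  have hsub : ∀ k, Ty G S (x k) ⊆ D := by
    intro k a ha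
    rw [← hlab k]
    exact ⟨a, ha, SimpleGraph.Reachable.refl _⟩
  have h1 : n1 G r S L x = 0 := by
    by_contra h
    obtain ⟨Q, hQ, _, hcov, _⟩ := hTQ1 V G r S L henv x h
    have hQD : Q ⊆ D := by
      intro q hq
      obtain ⟨j, hj⟩ := hcov q hq
      exact hsub j hj
    have := Set.ncard_le_ncard hQD (Set.toFinite _)
    have h2 := hD.1
    omega
  have h2 : nE G r S L x = 0 ∧ nM G r S L x = 0 := by
    by_contra h
    have h' : nE G r S L x ≠ 0 ∨ nM G r S L x ≠ 0 := by tauto
    obtain ⟨Q, hQ, _, hcov, _, _, _, _, j, hj⟩ := hTQ2 V G r S L henv x h'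
    have hne : D.Nonempty := by
      rw [← Set.ncard_pos (Set.toFinite _)]
      have := hD.1
      omega
    obtain ⟨b, hb⟩ := hne
    rw [← hlab j] at hb
    obtain ⟨a, ha, _⟩ := hb
    exact hD.2 a (hsub j ha) (hj a ha)
  rw [br, h1, h2.1, h2.2]
  simp

theorem k3a (hTQ1 : S_TQ1) (hTQ2 : S_TQ2) (hDIS : S_DIS) (hK1 : S_K1) (hK14 : S_K14)
    (hK2 : S_K2) : S_k3a := by
  intro V _ G r S L henv x hsg
  have hr : 3 ≤ r := by have := henv.hl; omega
  have hkap : 1 / 3 ≤ kap r := by unfold kap; split_ifs <;> norm_num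
  have hthe : 0 ≤ the r := by unfold the; split_ifs <;> norm_num
  have hif : 0 ≤ (if P22 (lab G (r + 1) S L) x then the r else 0) := by
    split_ifs
    · exact hthe
    · exact le_refl _
  have hf : (0 : ℝ) < (r.factorial : ℝ) ^ 2 := by
    have : (0 : ℝ) < (r.factorial : ℝ) := by exact_mod_cast r.factorial_pos
    positivity
  by_cases h1 : n1 G r S L x = 0
  · by_cases h2 : nE G r S L x = 0 ∧ nM G r S L x = 0
    · rw [br, h1, h2.1, h2.2]
      simp only [Nat.cast_zero, zero_div, add_zero]
      apply mul_nonneg _ hf.le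
      linarith
    · have h' : nE G r S L x ≠ 0 ∨ nM G r S L x ≠ 0 := by tauto
      obtain ⟨Q, hQ, _, hcov, hclq, hhyp, hE, hM, _⟩ := hTQ2 V G r S L henv x h'
      haveI : Fintype Q := Fintype.ofFinite Q
      have hcard : Fintype.card Q = r := by
        rw [← Nat.card_eq_fintype_card, Nat.card_coe_set_eq]; exact hQ
      have h3 := hK2 Q r _ _ _ (TQ G S x Q) hr hcard hclq hhyp
      have h4 : ((3 * (nE G r S L x + nM G r S L x) : ℕ) : ℝ) ≤ ((r.factorial ^ 2 : ℕ) : ℝ) := by
        apply Nat.cast_le.2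
        refine le_trans ?_ h3
        omega
      push_cast at h4
      rw [br, h1]
      simp only [Nat.cast_zero, zero_div, zero_add]
      nlinarith [mul_nonneg hif hf.le, mul_le_mul_of_nonneg_right hkap hf.le]
  · obtain ⟨Q, hQ, hsubQ, hcov, hne, hNT, hclq, hn1, hiso⟩ := hTQ1 V G r S L henv x h1
    have h2 : nE G r S L x = 0 ∧ nM G r S L x = 0 := by
      by_contra h
      have h' : nE G r S L x ≠ 0 ∨ nM G r S L x ≠ 0 := by tauto
      obtain ⟨Q', hQ', hsub', hcov', _⟩ := hTQ2 V G r S L henv x h'
      have hQQ : Q ⊆ Q' := by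
        intro q hq
        obtain ⟨j, hj⟩ := hcov q hq
        exact hsub' j hj
      have := Set.ncard_le_ncard hQQ (Set.toFinite _)
      omega
    haveI : Fintype Q := Fintype.ofFinite Q
    have hcard : Fintype.card Q = r + 1 := by
      rw [← Nat.card_eq_fintype_card, Nat.card_coe_set_eq]; exact hQ
    have hn1' : (n1 G r S L x : ℝ) ≤ (M1 (TQ G S x Q) : ℝ) := by exact_mod_cast hn1
    rw [br, h2.1, h2.2]
    simp only [Nat.cast_zero, add_zero]
    by_cases hr4 : 4 ≤ r
    · have h3 := hK1 Q r _ (TQ G S x Q) hr4 hcard hNT hclq (hiso hsg)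
      nlinarith [mul_nonneg hif hf.le]
    · have hr3 : r = 3 := by omega
      subst hr3
      have hkap3 : kap 3 = 1 / 3 := by unfold kap; norm_num
      have hthe3 : the 3 = 1 / 9 := by unfold the; norm_num
      have hf3 : ((Nat.factorial 3 : ℕ) : ℝ) = 6 := by norm_num [Nat.factorial]
      rcases hK14 Q _ (TQ G S x Q) hcard hNT hclq (hiso hsg) with h3 | ⟨h3, a, b, c, d, t, hab,
        hac, had, hbc, hbd, hcd, hRab, hRcd, n0, n1', n2, n3, s0, s1, s2, s3⟩
      · have h3' : (M1 (TQ G S x Q) : ℝ) ≤ 24 := by exact_mod_cast h3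
        rw [hkap3, hf3]
        rw [hf3] at hf
        nlinarith [mul_nonneg hif hf.le]
      · have h3' : (M1 (TQ G S x Q) : ℝ) ≤ 32 := by exact_mod_cast h3
        have hP : P22 (lab G (3 + 1) S L) x := by
          have hAab : (HG G 4 S L).Adj (a : V) (b : V) := hRab
          have hAcd : (HG G 4 S L).Adj (c : V) (d : V) := hRcd
          have hdis := hDIS V G S L henv (a : V) (b : V) (c : V) (d : V)
            (fun h => hac (Subtype.ext h)) (fun h => had (Subtype.ext h))
            (fun h => hbc (Subtype.ext h)) (fun h => hbd (Subtype.ext h)) hAab hAcd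
          have key : ∀ (p q : Q) (k : Fin 4), (HG G 4 S L).Adj (p : V) (q : V) →
              (TQ G S x Q k).Nonempty → TQ G S x Q k ⊆ {p, q} →
              lab G (3 + 1) S L (x k) = {z | (HG G 4 S L).Reachable (p : V) z} := by
            intro p q k hpq hne' hs
            have hall : ∀ a' ∈ Ty G S (x k), (HG G 4 S L).Reachable (p : V) a' := by
              intro a' ha'
              have hmem : (⟨a', hsubQ k ha'⟩ : Q) ∈ TQ G S x Q k := ha'
              rcases hs hmem with h | h
              · rw [← h]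
              · have h' : (⟨a', hsubQ k ha'⟩ : Q) = q := h
                have : a' = (q : V) := by rw [← h']
                rw [this]
                exact hpq.reachable
            ext z
            constructor
            · rintro ⟨a', ha', hz⟩
              exact (hall a' ha').trans hz
            · intro hz
              obtain ⟨q', hq'⟩ := hne'
              exact ⟨q', hq', (hall q' hq').symm.trans hz⟩
          have l0 := key a b (t 0) hAab n0 s0
          have l1 := key a b (t 1) hAab n1' s1
          have l2 := key c d (t 2) hAcd n2 s2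
          have l3 := key c d (t 3) hAcd n3 s3
          have hDD : {z | (HG G 4 S L).Reachable (a : V) z} ≠
              {z | (HG G 4 S L).Reachable (c : V) z} := by
            intro h
            have : (c : V) ∈ {z | (HG G 4 S L).Reachable (c : V) z} :=
              SimpleGraph.Reachable.refl _
            rw [← h] at this
            exact hdis this
          refine ⟨rfl, _, _, hDD, ?_, ?_⟩
          · have : {k | lab G (3 + 1) S L (x k) = {z | (HG G 4 S L).Reachable (a : V) z}} =
                {t 0, t 1} := by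
              ext k
              obtain ⟨k', rfl⟩ := t.surjective k
              simp only [Set.mem_ofPred_eq, Set.mem_insert_iff, Set.mem_singleton_iff,
                EmbeddingLike.apply_eq_iff_eq]
              fin_cases k'
              · simpa using l0
              · simpa using l1
              · simp only [Fin.reduceFinMk]
                rw [l2]
                simp only [Fin.reduceEq, or_self, iff_false]
                exact hDD.symm
              · simp only [Fin.reduceFinMk]
                rw [l3]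
                simp only [Fin.reduceEq, or_self, iff_false]
                exact hDD.symm
            rw [this, Set.ncard_pair]
            intro h
            have := t.injective h
            exact absurd this (by decide)
          · have : {k | lab G (3 + 1) S L (x k) = {z | (HG G 4 S L).Reachable (c : V) z}} =
                {t 2, t 3} := by
              ext k
              obtain ⟨k', rfl⟩ := t.surjective k
              simp only [Set.mem_ofPred_eq, Set.mem_insert_iff, Set.mem_singleton_iff,
                EmbeddingLike.apply_eq_iff_eq]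
              fin_cases k'
              · simp only [Fin.zero_eta]
                rw [l0]
                simp only [Fin.reduceEq, or_self, iff_false]
                exact hDD
              · simp only [Fin.mk_one]
                rw [l1]
                simp only [Fin.reduceEq, or_self, iff_false]
                exact hDD
              · simpa using l2
              · simpa using l3
            rw [this, Set.ncard_pair]
            intro h
            have := t.injective h
            exact absurd this (by decide)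
        rw [if_pos hP, hkap3, hthe3, hf3]
        norm_num
        linarith

end Pool.Agent.Y494.PK
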