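import Pool.Agent.Y494.PK.Stm

/-!
Project PK (MP_490135_co): the non rich case.
-/

namespace Pool.Agent.Y494.PK

open Classical

theorem br_zero_of_not_cl {V : Type} [Fintype V] (G : SimpleGraph V) (r : ℕ) (S L : Set V)
    (x : Fin (r + 1) → V) (j : Fin (r + 1)) (hj : ¬ Cl G (r + 1) S L (x j)) :
    br G r S L x = 0 := by
  have h1 : n1 G r S L x = 0 := by
    unfold n1
    rw [Set.ncard_eq_zero (Set.toFinite _)]
    ext ⟨t, h, i⟩
    simp only [Set.mem_setOf_eq, Set.mem_empty_iff_false, iff_false]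
    intro hp
    apply hj
    have := hp.2 (t⁻¹ j)
    simpa using this
  have h2 : nE G r S L x = 0 := by
    unfold nE
    rw [Set.ncard_eq_zero (Set.toFinite _)]
    ext ⟨t, h⟩
    simp only [Set.mem_setOf_eq, Set.mem_empty_iff_false, iff_false]
    intro hp
    apply hj
    have := hp.ycl (t⁻¹ j)
    simpa using this
  have h3 : nM G r S L x = 0 := by
    unfold nM
    rw [Set.ncard_eq_zero (Set.toFinite _)]
    ext ⟨t, h, a⟩
    simp only [Set.mem_setOf_eq, Set.mem_empty_iff_false, iff_false]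
    intro hp
    apply hj
    have := hp.ycl (t⁻¹ j)
    simpa using this
  simp [br, h1, h2, h3]

theorem kap_pos (r : ℕ) : 0 < kap r := by
  unfold kap
  split_ifs <;> norm_num

theorem kap_ge (r : ℕ) (hr : 3 ≤ r) : 1 / (r : ℝ) ≤ kap r := by
  have h3 : (3 : ℝ) ≤ r := by exact_mod_cast hr
  have h : 1 / (r : ℝ) ≤ 1 / 3 := one_div_le_one_div_of_le (by norm_num) h3
  unfold kap
  split_ifs <;> linarith

theorem the_nonneg (r : ℕ) : 0 ≤ the r := by
  unfold the
  split_ifs <;> norm_num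

theorem nr (hDEC : S_DEC) (hSYM : S_SYM) (h1 : S_k1) (h2a : S_k2a) (h2b : S_k2b) (h2c : S_k2c)
    (h3a : S_k3a) (h3b : S_k3b) (hSUM : S_SUM) (hNUM : S_NUM) : ∀ l, 4 ≤ l → S_NR l := by
  intro l hl
  obtain ⟨r, rfl⟩ : ∃ r, l = r + 1 := ⟨l - 1, by omega⟩
  have hr : 3 ≤ r := by omega
  have hr0 : (0 : ℝ) < r := by
    have : 0 < r := by omega
    exact_mod_cast this
  have hr3 : (3 : ℝ) ≤ r := by exact_mod_cast hr
  obtain ⟨hlt, hcc⟩ := hNUM r hr
  obtain ⟨kst, hkst⟩ : ∃ k, k = max ((1 - 1 / (r : ℝ)) * rho r + 3 / 4 * the r)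
    (kap r + 3 / 4 * the r) := ⟨_, rfl⟩
  obtain ⟨C0, hC0⟩ : ∃ C, C = (r.factorial : ℝ) ^ 2 / ((r + 1).factorial : ℝ) := ⟨_, rfl⟩
  rw [← hkst] at hlt
  rw [← hC0] at hcc
  have hf : (0 : ℝ) < (r.factorial : ℝ) := by exact_mod_cast r.factorial_pos
  have hf1 : (0 : ℝ) < ((r + 1).factorial : ℝ) := by exact_mod_cast (r + 1).factorial_pos
  have hC0p : 0 < C0 := by rw [hC0]; positivity
  have hepos : 0 < C0 * (rho r - kst) / 2 := by
    have : 0 < rho r - kst := by linarith
    positivity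
  obtain ⟨α, hα, n₁, hdec⟩ := hDEC r hr (2 * (C0 * (rho r - kst) / 2)) (by positivity)
  refine ⟨C0 * (rho r - kst) / 2, hepos, α, hα, n₁, ?_⟩
  intro V _ G hn hnl hrich
  obtain ⟨S, L, henv, hdeg, hle⟩ := hdec V G hn hnl
  have hsum := hSUM r hr V (Set V) {v | Sg G (r + 1) S L v}
    {v | Cl G (r + 1) S L v ∧ ¬ Sg G (r + 1) S L v} (lab G (r + 1) S L)
    {D | Good G r S L D} (fun x => br G r S L x / (r.factorial : ℝ) ^ 2)
    (1 - 1 / (r : ℝ)) (kap r) (the r)
    (fun v hv hv' => hv'.2 hv)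
    (by
      have : 1 / (r : ℝ) ≤ 1 := by
        rw [div_le_one hr0]; linarith
      linarith)
    (by
      have : 0 ≤ 1 / (r : ℝ) := by positivity
      linarith)
    (kap_pos r) (kap_ge r hr) (the_nonneg r)
    (by
      by_cases h : r = 3
      · exact Or.inl h
      · right; unfold the; rw [if_neg h])
    (by
      rintro x ⟨j, hj1, hj2⟩
      have : ¬ Cl G (r + 1) S L (x j) := by
        intro hc
        exact hj2 ⟨hc, hj1⟩
      simp only [br_zero_of_not_cl G r S L x j this, zero_div, le_refl])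
    (by
      intro x j k hjk hj hk
      simp only [h1 V G r S L henv x j k hjk hj hk, zero_div, le_refl])
    (by
      intro x j hj
      rw [div_le_iff₀ (by positivity)]
      exact h2a V G r S L α henv hdeg hrich x j hj)
    (by
      intro x j hj hD
      rw [div_le_iff₀ (by positivity)]
      exact h2b V G r S L henv x j hj hD)
    (by
      intro x j hj hD hk
      have := h2c V G r S L henv x j hj hD hk
      simp only [this, zero_div, le_refl])
    (by
      intro x hx
      rw [div_le_iff₀ (by positivity)]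
      exact h3a V G r S L henv x hx)
    (by
      intro x hx
      have := h3b V G r S L henv x hx
      simp only [this, zero_div, le_refl])
  rw [← hkst, ← Finset.sum_div, div_le_iff₀ (by positivity), hSYM V G r S L] at hsum
  have key : ((T1c G r S L).ncard : ℝ) / 2 + ((Ec G r S L).ncard : ℝ)
      + ((Mc G r S L).ncard : ℝ) ≤ C0 * kst * (Fintype.card V : ℝ) ^ (r + 1) := by
    rw [hC0, div_mul_eq_mul_div, div_mul_eq_mul_div, le_div_iff₀ hf1]
    nlinarith [hsum]
  rw [hcc]
  have e1 : 2 * (C0 * rho r - C0 * (rho r - kst) / 2) * (Fintype.card V : ℝ) ^ (r + 1)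
      = 2 * (C0 * kst * (Fintype.card V : ℝ) ^ (r + 1))
        + 2 * (C0 * (rho r - kst) / 2) * (Fintype.card V : ℝ) ^ (r + 1) := by ring
  rw [e1]
  linarith

end Pool.Agent.Y494.PK
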