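import Pool.Agent.Y494.PK.Stm

/-!
Project PK (MP_490135_co): numerical facts and the case distinction for tuples of the first kind.
-/

namespace Pool.Agent.Y494.PK

open Classical

theorem rho_gt (r : ℕ) (hr : 1 ≤ r) : 1 / 3 < rho r := by
  have hr0 : (0 : ℝ) < r := by exact_mod_cast hr
  unfold rho
  have h1 : (1 + 1 / (r : ℝ)) ^ r ≤ Real.exp 1 := by
    have h := Real.add_one_le_exp (1 / (r : ℝ))
    have h2 : (1 + 1 / (r : ℝ)) ^ r ≤ (Real.exp (1 / (r : ℝ))) ^ r := by
      apply pow_le_pow_left₀ (by positivity)
      linarith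
    rw [← Real.exp_nat_mul] at h2
    have h3 : (r : ℝ) * (1 / (r : ℝ)) = 1 := by field_simp
    rwa [h3] at h2
  have h2 := Real.exp_one_lt_d9
  have h3 : ((r : ℝ) / ((r : ℝ) + 1)) ^ r = 1 / (1 + 1 / (r : ℝ)) ^ r := by
    rw [one_div, ← inv_pow]
    congr 1
    field_simp
  rw [h3]
  have h4 : 0 < (1 + 1 / (r : ℝ)) ^ r := by positivity
  rw [one_div_lt_one_div (by norm_num) h4]
  linarith

theorem num : S_NUM := by
  intro r hr
  have hr0 : (0 : ℝ) < r := by
    have : 0 < r := by omega
    exact_mod_cast this
  constructor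
  · rw [max_lt_iff]
    by_cases h3 : r = 3
    · subst h3
      constructor <;> norm_num [rho, kap, the]
    · have ht : the r = 0 := by unfold the; rw [if_neg h3]
      rw [ht]
      have hrho := rho_gt r (by omega)
      constructor
      · have : 0 < 1 / (r : ℝ) * rho r := by
          apply mul_pos (by positivity)
          linarith
        linarith
      · by_cases h4 : r = 4
        · subst h4
          norm_num [rho, kap]
        · by_cases h5 : r = 5
          · subst h5
            norm_num [rho, kap]
          · have : kap r = 1 / 3 := by unfold kap; rw [if_neg h4, if_neg h5]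
            rw [this]; linarith
  · unfold cc rho
    have hf : ((r + 1).factorial : ℝ) = ((r : ℝ) + 1) * (r.factorial : ℝ) := by
      rw [Nat.factorial_succ]; push_cast; ring
    have hf0 : (r.factorial : ℝ) ≠ 0 := by exact_mod_cast r.factorial_ne_zero
    rw [hf]
    simp only [Nat.add_sub_cancel]
    push_cast
    have h1 : (r : ℝ) + 1 ≠ 0 := by positivity
    rw [div_pow]
    field_simp
    ring

theorem k1all (hA : S_K1a) (hB : S_K1b) (hB5 : S_K1b5) (hC : S_K1c) (hA5 : S_K1a5) : S_K1 := by
  intro Q _ r R T hr hcard hNT hclq hiso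
  have hr4 : (4 : ℝ) ≤ r := by exact_mod_cast hr
  have hr0 : (0 : ℝ) < r := by linarith
  have hfac : (r.factorial : ℝ) = (r : ℝ) * ((r - 1).factorial : ℝ) := by
    have := Nat.mul_factorial_pred (show r ≠ 0 by omega)
    exact_mod_cast this.symm
  have hfp : (0 : ℝ) < ((r - 1).factorial : ℝ) := by exact_mod_cast (r - 1).factorial_pos
  have hkap : ∀ r, 1 / 3 ≤ kap r := by intro r; unfold kap; split_ifs <;> norm_num
  have hr6 : r = 4 ∨ r = 5 ∨ 6 ≤ r := by omega
  have e1 : r + 1 - 1 = r := by omega
  have e2 : r + 1 - 2 = r - 1 := by omega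
  by_cases h2 : ∃ v v' : Q, v ≠ v' ∧ dX T v ≤ 1 ∧ dX T v' ≤ 1
  · obtain ⟨v, v', hne, hv, hv'⟩ := h2
    have h := hC Q (r + 1) R T v v' (by omega) hcard hNT hclq hne hv hv'
    rw [e1, e2] at h
    have h' : (M1 T : ℝ) ≤ 2 * (r.factorial : ℝ) * ((r - 1).factorial : ℝ) := by exact_mod_cast h
    have h3 := hkap r
    have h4 : ((r - 1).factorial : ℝ) ≤ 1 / 4 * (r.factorial : ℝ) := by
      rw [hfac]; nlinarith
    have h5 : (0 : ℝ) < (r.factorial : ℝ) := by exact_mod_cast r.factorial_pos
    have h6 : (r.factorial : ℝ) * ((r - 1).factorial : ℝ) ≤ 1 / 4 * (r.factorial : ℝ) ^ 2 := by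
      nlinarith
    nlinarith [mul_pos h5 h5, mul_le_mul_of_nonneg_right h3 (sq_nonneg (r.factorial : ℝ))]
  · by_cases h1 : ∃ v : Q, dX T v ≤ 1
    · obtain ⟨v, hv⟩ := h1
      have hoth : ∀ h, h ≠ v → 2 ≤ dX T h := by
        intro h hne
        by_contra hcon
        exact h2 ⟨h, v, hne, by omega, hv⟩
      by_cases h0 : dX T v = 0
      · have hM : M1 T = 0 := by
          unfold M1
          rw [Set.ncard_eq_zero (Set.toFinite _)]
          apply Set.eq_empty_of_forall_notMem
          rintro ⟨e, i, t⟩ ⟨_, hm, _⟩
          unfold dX at h0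
          rw [Set.ncard_eq_zero (Set.toFinite _)] at h0
          have : t (e.symm v) ∈ {x | v ∈ T x} := by
            have := hm (e.symm v)
            simpa using this
          rw [h0] at this
          exact this
        rw [hM]
        have h3 := hkap r
        simp only [Nat.cast_zero, zero_div]
        positivity
      · have hv1 : dX T v = 1 := by omega
        rcases hr6 with h4 | h5 | h6
        · subst h4
          have h := hB5 Q R T v hcard hNT hclq (hiso v) hoth hv1
          have h' : (M1 T : ℝ) ≤ 432 := by exact_mod_cast h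
          norm_num [kap, Nat.factorial]
          linarith
        · subst h5
          have h := hB Q 6 R T v (by norm_num) hcard hNT hclq (hiso v) hoth hv1
          have h' : 10 * (M1 T : ℝ) ≤ ((20 * (6 - 2).factorial * (6 - 1).factorial
            + 3 * (6 - 1).factorial ^ 2 : ℕ) : ℝ) := by exact_mod_cast h
          norm_num [kap, Nat.factorial] at h' ⊢
          linarith
        · have h := hB Q (r + 1) R T v (by omega) hcard hNT hclq (hiso v) hoth hv1
          rw [e1, e2] at h
          have h' : 10 * (M1 T : ℝ) ≤ 20 * ((r - 1).factorial : ℝ) * (r.factorial : ℝ)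
            + 3 * (r.factorial : ℝ) ^ 2 := by exact_mod_cast h
          have h3 := hkap r
          have h6' : (6 : ℝ) ≤ r := by exact_mod_cast h6
          have h5 : (0 : ℝ) < (r.factorial : ℝ) := by exact_mod_cast r.factorial_pos
          have h7 : ((r - 1).factorial : ℝ) ≤ 1 / 6 * (r.factorial : ℝ) := by
            rw [hfac]; nlinarith
          have h8 : ((r - 1).factorial : ℝ) * (r.factorial : ℝ) ≤ 1 / 6 * (r.factorial : ℝ) ^ 2 := by
            nlinarith
          nlinarith [mul_le_mul_of_nonneg_right h3 (sq_nonneg (r.factorial : ℝ)),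
            sq_nonneg (r.factorial : ℝ)]
    · have hall : ∀ h, 2 ≤ dX T h := by
        intro h
        by_contra hcon
        exact h1 ⟨h, by omega⟩
      rcases hr6 with h4 | h5 | h6
      · subst h4
        have h := hA5 Q R T hcard hNT hclq hall
        have h' : (M1 T : ℝ) ≤ 432 := by exact_mod_cast h
        norm_num [kap, Nat.factorial]
        linarith
      · subst h5
        have h := hA Q 6 R T (by norm_num) hcard hNT hclq hall
        have h' : (M1 T : ℝ) ≤ 11520 := by
          have h0 : M1 T ≤ 11520 := h
          exact_mod_cast h0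
        norm_num [kap, Nat.factorial]
        linarith
      · have h := hA Q (r + 1) R T (by omega) hcard hNT hclq hall
        rw [e1, e2] at h
        have h' : (M1 T : ℝ) ≤ 4 * (r.factorial : ℝ) * ((r - 1).factorial : ℝ) := by
          exact_mod_cast h
        have h3 := hkap r
        have h6' : (6 : ℝ) ≤ r := by exact_mod_cast h6
        have h5 : (0 : ℝ) < (r.factorial : ℝ) := by exact_mod_cast r.factorial_pos
        have h7 : ((r - 1).factorial : ℝ) ≤ 1 / 6 * (r.factorial : ℝ) := by
          rw [hfac]; nlinarith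
        have h8 : (r.factorial : ℝ) * ((r - 1).factorial : ℝ) ≤ 1 / 6 * (r.factorial : ℝ) ^ 2 := by
          nlinarith
        nlinarith [mul_le_mul_of_nonneg_right h3 (sq_nonneg (r.factorial : ℝ))]

end Pool.Agent.Y494.PK
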