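import Pool.Agent.Y494.PK.Stm

/-!
Project PK (MP_490135_co): intermediate statements.
-/

namespace Pool.Agent.Y494.PK

open Classical

/-- types of clean lows in a leading configuration are inside the hub set -/
def S_SUB1 : Prop := ∀ (V : Type) [Fintype V] (G : SimpleGraph V) (r : ℕ) (S L : Set V),
  Env G (r + 1) S L → ∀ (x h : Fin (r + 1) → V) (i : Fin (r + 1)), (x, h, i) ∈ T1c G r S L →
  ∀ j, Ty G S (x j) ⊆ Set.range h

def S_SUBE : Prop := ∀ (V : Type) [Fintype V] (G : SimpleGraph V) (r : ℕ) (S L : Set V),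
  Env G (r + 1) S L → ∀ (y : Fin (r + 1) → V) (h : Fin r → V), (y, h) ∈ Ec G r S L →
  ∀ j, Ty G S (y j) ⊆ Set.range h

def S_SUBM : Prop := ∀ (V : Type) [Fintype V] (G : SimpleGraph V) (r : ℕ) (S L : Set V),
  Env G (r + 1) S L → ∀ (y : Fin (r + 1) → V) (h : Fin r → V) (a : Fin r),
  (y, h, a) ∈ Mc G r S L → ∀ j, Ty G S (y j) ⊆ Set.range h

/-- no long chain in the hub graph -/
def S_P1V : Prop := ∀ (V : Type) [Fintype V] (G : SimpleGraph V) (l : ℕ) (S L : Set V),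
  Env G l S L → ∀ (h : Fin l → V), Function.Injective h →
  ¬ ∀ j k : Fin l, (k : ℕ) = j + 1 → (HG G l S L).Adj (h j) (h k)

/-- an isolated hub in a leading configuration gives a special low -/
def S_ISO : Prop := ∀ (V : Type) [Fintype V] (G : SimpleGraph V) (r : ℕ) (S L : Set V),
  Env G (r + 1) S L → ∀ (x h : Fin (r + 1) → V) (i : Fin (r + 1)), (x, h, i) ∈ T1c G r S L →
  ∀ s, (∀ k, ¬ (HG G (r + 1) S L).Adj (h s) (h k)) → Sg G (r + 1) S L (x s)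

/-- position of a special low -/
def S_SG1 : Prop := ∀ (V : Type) [Fintype V] (G : SimpleGraph V) (r : ℕ) (S L : Set V),
  Env G (r + 1) S L → ∀ (x h : Fin (r + 1) → V) (i : Fin (r + 1)), (x, h, i) ∈ T1c G r S L →
  ∀ j, Sg G (r + 1) S L (x j) →
  Ty G S (x j) = {h j} ∧ (((j : ℕ) = 0 ∧ (i : ℕ) = 0) ∨ ((j : ℕ) = r ∧ (i : ℕ) + 1 = r))

/-- no special low in configurations of the second kind -/
def S_SGE : Prop := ∀ (V : Type) [Fintype V] (G : SimpleGraph V) (r : ℕ) (S L : Set V),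
  Env G (r + 1) S L → (∀ (y : Fin (r + 1) → V) (h : Fin r → V), (y, h) ∈ Ec G r S L →
    ∀ j, ¬ Sg G (r + 1) S L (y j)) ∧
  (∀ (y : Fin (r + 1) → V) (h : Fin r → V) (a : Fin r), (y, h, a) ∈ Mc G r S L →
    ∀ j, ¬ Sg G (r + 1) S L (y j))

/-- types restricted to a hub set -/
def TQ {V : Type} (G : SimpleGraph V) (S : Set V) {m : ℕ} (x : Fin m → V) (Q : Set V) :
    Fin m → Set Q := fun j => {q | (q : V) ∈ Ty G S (x j)}

/-- transfer, first kind -/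
def S_TQ1 : Prop := ∀ (V : Type) [Fintype V] (G : SimpleGraph V) (r : ℕ) (S L : Set V),
  Env G (r + 1) S L → ∀ (x : Fin (r + 1) → V), n1 G r S L x ≠ 0 →
  ∃ Q : Set V, Q.ncard = r + 1 ∧ (∀ j, Ty G S (x j) ⊆ Q) ∧ (∀ q ∈ Q, ∃ j, q ∈ Ty G S (x j)) ∧
    (∀ j, (Ty G S (x j)).Nonempty) ∧
    NT (r + 1) ((HG G (r + 1) S L).induce Q) ∧ Clq ((HG G (r + 1) S L).induce Q) (TQ G S x Q) ∧
    n1 G r S L x ≤ M1 (TQ G S x Q) ∧
    ((∀ j, ¬ Sg G (r + 1) S L (x j)) → ∀ h : Q, ∃ w, ((HG G (r + 1) S L).induce Q).Adj h w)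

/-- transfer, second kind -/
def S_TQ2 : Prop := ∀ (V : Type) [Fintype V] (G : SimpleGraph V) (r : ℕ) (S L : Set V),
  Env G (r + 1) S L → ∀ (x : Fin (r + 1) → V), nE G r S L x ≠ 0 ∨ nM G r S L x ≠ 0 →
  ∃ Q : Set V, Q.ncard = r ∧ (∀ j, Ty G S (x j) ⊆ Q) ∧ (∀ q ∈ Q, ∃ j, q ∈ Ty G S (x j)) ∧
    Clq ((HG G (r + 1) S L).induce Q) (TQ G S x Q) ∧
    Hyp2 r ((HG G (r + 1) S L).induce Q) {q | PE G (r + 1) S L (q : V)}
      (fun a b => PLk G (r + 1) S L (a : V) (b : V)) ∧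
    nE G r S L x ≤ ME (TQ G S x Q) {q | PE G (r + 1) S L (q : V)} ∧
    nM G r S L x ≤ MM (TQ G S x Q) {q | PE G (r + 1) S L (q : V)}
      (fun a b => PLk G (r + 1) S L (a : V) (b : V)) ∧
    (∃ j, ∀ a ∈ Ty G S (x j), PE G (r + 1) S L a)

/-- transfer, one special low -/
def S_TQS : Prop := ∀ (V : Type) [Fintype V] (G : SimpleGraph V) (r : ℕ) (S L : Set V),
  Env G (r + 1) S L → ∀ (x : Fin (r + 1) → V) (j : Fin (r + 1)), Sg G (r + 1) S L (x j) →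
  br G r S L x ≠ 0 →
  ∃ (v : V) (Q : Set V), v ∈ S ∧ (∀ w, ¬ (HG G (r + 1) S L).Adj v w) ∧ v ∉ Q ∧ Q ⊆ S ∧
    Q.ncard = r ∧
    (∀ k, k ≠ j → Cl G (r + 1) S L (x k) ∧ Ty G S (x k) ⊆ Q ∧ (Ty G S (x k)).Nonempty) ∧
    (∀ q ∈ Q, ∃ k, k ≠ j ∧ q ∈ Ty G S (x k)) ∧
    (∀ a ∈ Q, ∀ b ∈ Q, (HG G (r + 1) S L).Reachable a b) ∧
    Clq ((HG G (r + 1) S L).induce Q) (TQ G S (fun k => x (j.succAbove k)) Q) ∧
    br G r S L x ≤ (MS (TQ G S (fun k => x (j.succAbove k)) Q) {q | G.Adj v (q : V)} : ℝ) ∧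
    (∀ e : Fin r ≃ Q, Ham ((HG G (r + 1) S L).induce Q) e →
      (∀ s : Fin r, (s : ℕ) = 0 → G.Adj v (e s : V)) →
      ∀ s : Fin r, (s : ℕ) + 1 = r →
        ¬ PE G (r + 1) S L (e s : V) ∧ ∀ w, w ∉ Q → ¬ (HG G (r + 1) S L).Adj (e s : V) w)

/-- two disjoint edges of the hub graph are in different components when `l = 4` -/
def S_DIS : Prop := ∀ (V : Type) [Fintype V] (G : SimpleGraph V) (S L : Set V),
  Env G 4 S L → ∀ (a b c d : V), a ≠ c → a ≠ d → b ≠ c → b ≠ d →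
  (HG G 4 S L).Adj a b → (HG G 4 S L).Adj c d → ¬ (HG G 4 S L).Reachable a c

end Pool.Agent.Y494.PK
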