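import Mathlib

/-!
Project PK (MP_490135_co): definitions and statements.

Convention: the length parameter is l = r + 1 with r at least 3; the target is the number of copies
of the path on 2l vertices in graphs with no path on 2l+1 vertices.
-/

namespace Pool.Agent.Y494.PK

open Classical

/-! ### Paths -/

/-- list path -/
def LP {V : Type} (G : SimpleGraph V) (p : List V) : Prop := p.Nodup ∧ p.IsChain G.Adj

/-- no path on more than `2 l` vertices -/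
def NoLong {V : Type} (G : SimpleGraph V) (l : ℕ) : Prop :=
  ∀ p : List V, LP G p → p.length ≤ 2 * l

/-- degree -/
noncomputable def dg {V : Type} (G : SimpleGraph V) (v : V) : ℕ := (G.neighborSet v).ncard

/-- directed path `u 0, w 0, u 1, w 1, …, u (l-1), w (l-1)` -/
structure IsDP {V : Type} (G : SimpleGraph V) (l : ℕ) (u w : Fin l → V) : Prop where
  uinj : Function.Injective u
  winj : Function.Injective w
  uw : ∀ i j, u i ≠ w j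
  mat : ∀ i, G.Adj (u i) (w i)
  con : ∀ i j : Fin l, (j : ℕ) = i + 1 → G.Adj (w i) (u j)

/-- all directed paths on `2 l` vertices -/
def DP {V : Type} (G : SimpleGraph V) (l : ℕ) : Set ((Fin l → V) × (Fin l → V)) :=
  {p | IsDP G l p.1 p.2}

/-- the graph `G_{n,k,m}` with `l = k / 2` -/
def GG (n l m : ℕ) : SimpleGraph (Fin n) :=
  SimpleGraph.fromRel (fun a b =>
    ((a : ℕ) < l ∧ (b : ℕ) < l) ∨
    ((a : ℕ) = 0 ∧ l ≤ (b : ℕ) ∧ (b : ℕ) < l + m) ∨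
    (1 ≤ (a : ℕ) ∧ (a : ℕ) < l ∧ l + m ≤ (b : ℕ)))

/-- the number of the standard paths -/
def PP (l n m : ℕ) : ℕ := (l - 1).factorial * m * (n - l - m).descFactorial (l - 1)

/-- the asymptotic constant -/
noncomputable def cc (l : ℕ) : ℝ :=
  ((l - 1).factorial : ℝ) * ((l : ℝ) - 1) ^ (l - 1) / (l : ℝ) ^ l

/-- rich graphs -/
def Rich {V : Type} (G : SimpleGraph V) (l : ℕ) (α : ℝ) : Prop :=
  ∃ (C : Finset V) (v : V), C.card = l - 1 ∧ v ∉ C ∧ (∀ c ∈ C, G.Adj v c) ∧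
    3 * l ≤ {x : V | ∀ c ∈ C, G.Adj x c}.ncard ∧ α * (Nat.card V : ℝ) ≤ (dg G v : ℝ)

/-! ### Top level statements -/

/-- copies and directed paths -/
def S_J1a : Prop := ∀ (n l : ℕ), 1 ≤ l → ∀ (G : SimpleGraph (Fin n)),
  2 * G.copyCount (SimpleGraph.pathGraph (2 * l)) = (DP G l).ncard

def S_J1b : Prop := ∀ (n l : ℕ) (G : SimpleGraph (Fin n)),
  (SimpleGraph.pathGraph (2 * l + 1)).Free G ↔ NoLong G l

/-- lower bound for the graphs `G_{n,k,m}` -/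
def S_GG : Prop := ∀ (n l m : ℕ), 2 ≤ l → m + l ≤ n →
  NoLong (GG n l m) l ∧ 2 * PP l n m ≤ (DP (GG n l m) l).ncard

/-- structure of rich graphs -/
def S_EXACT : Prop := ∀ (V : Type) [Fintype V] (G : SimpleGraph V) (l : ℕ), 2 ≤ l → NoLong G l →
  ∀ (C : Finset V) (v : V), C.card = l - 1 → v ∉ C → (∀ c ∈ C, G.Adj v c) →
  3 * l ≤ {x : V | ∀ c ∈ C, G.Adj x c}.ncard → 3 * l ≤ dg G v →
  ∃ (R : Set V) (m : ℕ), m + l + R.ncard ≤ Fintype.card V ∧ dg G v + R.ncard ≤ Fintype.card V ∧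
    (DP G l).ncard ≤ 2 * PP l (Fintype.card V - R.ncard) m + (DP (G.induce R) l).ncard

/-- arithmetic of `PP` -/
def S_PPub : Prop := ∀ (l n m : ℕ), 2 ≤ l → m + l ≤ n → (PP l n m : ℝ) ≤ cc l * (n : ℝ) ^ l

def S_PPlb : Prop := ∀ (l : ℕ), 2 ≤ l → ∀ ε : ℝ, 0 < ε → ∃ n₀ : ℕ, ∀ n ≥ n₀, ∃ m : ℕ, m + l ≤ n ∧
  (cc l - ε) * (n : ℝ) ^ l ≤ (PP l n m : ℝ)

/-- the non rich case -/
def S_NR (l : ℕ) : Prop := ∃ ε : ℝ, 0 < ε ∧ ∃ α : ℝ, 0 < α ∧ ∃ n₁ : ℕ,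
  ∀ (V : Type) [Fintype V] (G : SimpleGraph V), n₁ ≤ Fintype.card V → NoLong G l →
    ¬ Rich G l α → ((DP G l).ncard : ℝ) ≤ 2 * (cc l - ε) * (Fintype.card V : ℝ) ^ l

/-- global upper bound -/
def S_UB (l : ℕ) : Prop := ∃ A : ℝ, ∀ (V : Type) [Fintype V] (G : SimpleGraph V), NoLong G l →
  ((DP G l).ncard : ℝ) ≤ 2 * cc l * (Fintype.card V : ℝ) ^ l + A

/-- main theorem on directed paths -/
def S_TOP (l : ℕ) : Prop := ∃ n₀ : ℕ, ∀ n ≥ n₀, ∀ (G : SimpleGraph (Fin n)), NoLong G l →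
  ∃ m : ℕ, m + l ≤ n ∧ (DP G l).ncard ≤ 2 * PP l n m

/-! ### Counting -/

/-- ordered adjacent pairs -/
def S_A3 : Prop := ∀ (V : Type) [Fintype V] (G : SimpleGraph V) (l : ℕ), NoLong G l →
  {p : V × V | G.Adj p.1 p.2}.ncard ≤ 4 * l * Fintype.card V

/-- walks through two low vertices -/
def S_A4 : Prop := ∀ (V : Type) [Fintype V] (G : SimpleGraph V) (l D : ℕ) (L : Set V), NoLong G l →
  (∀ x ∈ L, dg G x ≤ D) →
  {p : (V × V) × (V × V) | G.Adj p.1.1 p.1.2 ∧ G.Adj p.1.2 p.2.1 ∧ G.Adj p.2.1 p.2.2 ∧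
    p.1.2 ∈ L ∧ p.2.1 ∈ L}.ncard ≤ 16 * l ^ 2 * D * Fintype.card V

/-- directed paths with one prescribed matched pair -/
def S_A5a : Prop := ∀ (V : Type) [Fintype V] (G : SimpleGraph V) (l : ℕ), NoLong G l →
  ∀ (j : Fin l) (P : Set (V × V)),
  {p : (Fin l → V) × (Fin l → V) | IsDP G l p.1 p.2 ∧ (p.1 j, p.2 j) ∈ P}.ncard
    ≤ P.ncard * (4 * l * Fintype.card V) ^ (l - 1)

/-- directed paths with two consecutive prescribed matched pairs -/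
def S_A5b : Prop := ∀ (V : Type) [Fintype V] (G : SimpleGraph V) (l : ℕ), NoLong G l →
  ∀ (j k : Fin l) (P : Set ((V × V) × (V × V))), j ≠ k →
  {p : (Fin l → V) × (Fin l → V) | IsDP G l p.1 p.2 ∧ ((p.1 j, p.2 j), (p.1 k, p.2 k)) ∈ P}.ncard
    ≤ P.ncard * (4 * l * Fintype.card V) ^ (l - 2)

/-- all directed paths -/
def S_A5 : Prop := ∀ (V : Type) [Fintype V] (G : SimpleGraph V) (l : ℕ), NoLong G l →
  (DP G l).ncard ≤ (4 * l * Fintype.card V) ^ l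

/-- the gap lemma -/
def S_GAP : Prop := ∀ (l : ℕ), 1 ≤ l → ∀ δ : ℝ, 0 < δ → ∀ g : ℝ → ℝ, (∀ x, 0 < x → 0 < g x ∧ g x ≤ x) →
  ∃ β : ℝ, 0 < β ∧ ∀ (V : Type) [Fintype V] (G : SimpleGraph V), NoLong G l →
  ∃ α : ℝ, α ≤ 1 ∧ β ≤ α ∧ β ≤ g α ∧
  ({p : (Fin l → V) × (Fin l → V) | IsDP G l p.1 p.2 ∧
      ∃ v : V, (∃ j, p.1 j = v ∨ p.2 j = v) ∧ g α * (Fintype.card V : ℝ) ≤ (dg G v : ℝ) ∧
        (dg G v : ℝ) < α * (Fintype.card V : ℝ)}.ncard : ℝ) ≤ δ * (Fintype.card V : ℝ) ^ l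

/-- pattern (LH)^a (HL)^(l-a) -/
def Pat1 {V : Type} (S L : Set V) {l : ℕ} (u w : Fin l → V) (a : ℕ) : Prop :=
  ∀ j : Fin l, ((j : ℕ) < a → u j ∈ L ∧ w j ∈ S) ∧ (a ≤ (j : ℕ) → u j ∈ S ∧ w j ∈ L)

/-- pattern (LH)^a (LL) (HL)^(l-1-a) -/
def Pat2 {V : Type} (S L : Set V) {l : ℕ} (u w : Fin l → V) (a : ℕ) : Prop :=
  ∀ j : Fin l, ((j : ℕ) < a → u j ∈ L ∧ w j ∈ S) ∧ ((j : ℕ) = a → u j ∈ L ∧ w j ∈ L) ∧
    (a < (j : ℕ) → u j ∈ S ∧ w j ∈ L)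

/-- few directed paths have another pattern -/
def S_B1 : Prop := ∀ (V : Type) [Fintype V] (G : SimpleGraph V) (l D : ℕ) (S L : Set V), 2 ≤ l →
  NoLong G l → (∀ v ∈ S, v ∉ L) → (∀ x ∈ L, dg G x ≤ D) → (∀ a ∈ S, 2 * l ≤ dg G a) →
  {p : (Fin l → V) × (Fin l → V) | IsDP G l p.1 p.2 ∧ (∀ j, p.1 j ∈ S ∪ L ∧ p.2 j ∈ S ∪ L) ∧
    (∀ a, 1 ≤ a → a < l → ¬ Pat1 S L p.1 p.2 a) ∧ (∀ a, a < l → ¬ Pat2 S L p.1 p.2 a)}.ncard
  ≤ l * S.ncard ^ 2 * (4 * l * Fintype.card V) ^ (l - 1)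
    + l * (16 * l ^ 2 * D * Fintype.card V) * (4 * l * Fintype.card V) ^ (l - 2)

/-! ### Hubs and lows -/

/-- the type of a vertex: the set of hubs adjacent to it -/
def Ty {V : Type} (G : SimpleGraph V) (S : Set V) (x : V) : Set V := {a | a ∈ S ∧ G.Adj a x}

/-- the environment: hubs `S`, lows `L` -/
structure Env {V : Type} (G : SimpleGraph V) (l : ℕ) (S L : Set V) : Prop where
  hl : 4 ≤ l
  nl : NoLong G l
  dis : ∀ v ∈ S, v ∉ L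
  ends : ∀ a ∈ S, 8 * l ≤ {x | x ∈ L ∧ G.Adj a x}.ncard

/-- clean low -/
def Cl {V : Type} (G : SimpleGraph V) (l : ℕ) (S L : Set V) (x : V) : Prop :=
  x ∈ L ∧ 8 * l ≤ {y | y ∈ L ∧ Ty G S y = Ty G S x}.ncard

/-- clean pair of lows -/
def Clp {V : Type} (G : SimpleGraph V) (l : ℕ) (S L : Set V) (x z : V) : Prop :=
  x ∈ L ∧ z ∈ L ∧ G.Adj x z ∧ ∃ P Z : Fin (8 * l) → V,
    (∀ i, P i ∈ L ∧ Z i ∈ L ∧ G.Adj (P i) (Z i) ∧ Ty G S (P i) = Ty G S x ∧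
      Ty G S (Z i) = Ty G S z) ∧
    ∀ i j, i ≠ j → P i ≠ P j ∧ Z i ≠ Z j ∧ P i ≠ Z j

/-- the hub graph -/
def HG {V : Type} (G : SimpleGraph V) (l : ℕ) (S L : Set V) : SimpleGraph V where
  Adj a b := a ≠ b ∧ a ∈ S ∧ b ∈ S ∧ 8 * l ≤ {x | x ∈ L ∧ G.Adj a x ∧ G.Adj b x}.ncard
  symm := by
    constructor
    rintro a b ⟨h1, h2, h3, h4⟩
    refine ⟨h1.symm, h3, h2, ?_⟩
    have : {x | x ∈ L ∧ G.Adj b x ∧ G.Adj a x} = {x | x ∈ L ∧ G.Adj a x ∧ G.Adj b x} := by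
      ext x; constructor <;> rintro ⟨p, q, t⟩ <;> exact ⟨p, t, q⟩
    rw [this]; exact h4
  loopless := by
    constructor
    rintro a ⟨h, _⟩
    exact h rfl

/-- pair link -/
def PLk {V : Type} (G : SimpleGraph V) (l : ℕ) (S L : Set V) (a b : V) : Prop :=
  ∃ x z, Clp G l S L x z ∧ a ∈ Ty G S x ∧ b ∈ Ty G S z

/-- hubs at which a path can end with two lows -/
def PE {V : Type} (G : SimpleGraph V) (l : ℕ) (S L : Set V) (a : V) : Prop :=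
  ∃ x z, Clp G l S L x z ∧ a ∈ Ty G S x

/-- links of a skeleton -/
def Lk {V : Type} (G : SimpleGraph V) (l : ℕ) (S L : Set V) (c : ℕ) (a b : V) : Prop :=
  (c = 0 ∧ G.Adj a b) ∨ (c = 1 ∧ (HG G l S L).Adj a b) ∨ (c = 2 ∧ PLk G l S L a b)

/-- skeleton: hubs `h 0, …, h (m-1)` with links `c 0, …, c (m-2)` and end code `d` -/
structure Skel {V : Type} (G : SimpleGraph V) (l : ℕ) (S L : Set V) {m : ℕ} (h : Fin m → V)
    (c : ℕ → ℕ) (d : ℕ) : Prop where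
  pos : 1 ≤ m
  inj : Function.Injective h
  hS : ∀ j, h j ∈ S
  lk : ∀ j k : Fin m, (k : ℕ) = j + 1 → Lk G l S L (c j) (h j) (h k)
  en : d = 1 ∨ (d = 2 ∧ ∀ j : Fin m, (j : ℕ) + 1 = m → PE G l S L (h j))

/-- number of vertices of the path given by a skeleton, from the first hub on -/
def SkN (m : ℕ) (c : ℕ → ℕ) (d : ℕ) : ℕ := m + ∑ j ∈ Finset.range (m - 1), c j + d

/-- embedding of skeletons -/
def S_EMB : Prop := ∀ (V : Type) [Fintype V] (G : SimpleGraph V) (l : ℕ) (S L : Set V),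
  Env G l S L → ∀ (m : ℕ) (h : Fin m → V) (c : ℕ → ℕ) (d : ℕ), Skel G l S L h c d →
  ∀ F : Finset V, F.card + SkN m c d ≤ 8 * l →
  ∃ p : List V, LP G p ∧ p.length = SkN m c d ∧ (∀ j : Fin m, (j : ℕ) = 0 → p.head? = some (h j)) ∧
    ∀ v ∈ p, v ∈ Set.range h ∨ (v ∈ L ∧ v ∉ F)

/-- cap with an explicit initial list -/
def S_CAPQ : Prop := ∀ (V : Type) [Fintype V] (G : SimpleGraph V) (l : ℕ) (S L : Set V),
  Env G l S L → ∀ (m : ℕ) (h : Fin m → V) (c : ℕ → ℕ) (d : ℕ), Skel G l S L h c d →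
  ∀ (q : List V), LP G q → (∀ v ∈ q, v ∉ Set.range h) →
  (∀ v, q.getLast? = some v → ∀ j : Fin m, (j : ℕ) = 0 → G.Adj v (h j)) →
  q.length + SkN m c d ≤ 8 * l → q.length + SkN m c d ≤ 2 * l

/-- cap with one low in front -/
def S_CAP1 : Prop := ∀ (V : Type) [Fintype V] (G : SimpleGraph V) (l : ℕ) (S L : Set V),
  Env G l S L → ∀ (m : ℕ) (h : Fin m → V) (c : ℕ → ℕ) (d : ℕ), Skel G l S L h c d →
  1 + SkN m c d ≤ 8 * l → 1 + SkN m c d ≤ 2 * l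

/-- cap with a pair of lows in front -/
def S_CAP2 : Prop := ∀ (V : Type) [Fintype V] (G : SimpleGraph V) (l : ℕ) (S L : Set V),
  Env G l S L → ∀ (m : ℕ) (h : Fin m → V) (c : ℕ → ℕ) (d : ℕ), Skel G l S L h c d →
  (∀ j : Fin m, (j : ℕ) = 0 → PE G l S L (h j)) →
  2 + SkN m c d ≤ 8 * l → 2 + SkN m c d ≤ 2 * l

/-! ### Leading configurations -/

/-- `x 0, h 0, x 1, h 1, …, x i, h i, h (i+1), x (i+1), h (i+2), …, h (l-1), x (l-1)` -/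
structure LV1 {V : Type} (G : SimpleGraph V) (S L : Set V) {l : ℕ} (x h : Fin l → V) (i : ℕ) :
    Prop where
  xinj : Function.Injective x
  hinj : Function.Injective h
  xL : ∀ j, x j ∈ L
  hS : ∀ j, h j ∈ S
  bri : i + 1 < l
  mat : ∀ j, G.Adj (h j) (x j)
  lef : ∀ j k : Fin l, (k : ℕ) = j + 1 → (k : ℕ) ≤ i → G.Adj (h j) (x k)
  rig : ∀ j k : Fin l, (k : ℕ) = j + 1 → i < (j : ℕ) → G.Adj (h k) (x j)
  mid : ∀ j k : Fin l, (k : ℕ) = j + 1 → (j : ℕ) = i → G.Adj (h j) (h k)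

/-- `y 0, e', h 0, y 1, h 1, y 2, …, h (r-1), y r` where (y 0, e') is a clean pair -/
structure LVE {V : Type} (G : SimpleGraph V) (S L : Set V) {r : ℕ} (y : Fin (r + 1) → V)
    (h : Fin r → V) : Prop where
  yinj : Function.Injective y
  hinj : Function.Injective h
  ycl : ∀ j, Cl G (r + 1) S L (y j)
  hS : ∀ j, h j ∈ S
  mat : ∀ j : Fin r, G.Adj (h j) (y j.succ)
  rig : ∀ j k : Fin r, (k : ℕ) = j + 1 → G.Adj (h k) (y j.succ)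
  ex : ∃ e', Clp G (r + 1) S L (y 0) e' ∧ (∀ j, e' ≠ y j) ∧
    ∀ j : Fin r, (j : ℕ) = 0 → G.Adj (h j) e'

/-- `y 1, h 0, y 2, h 1, …, y a, h (a-1), y 0, z, h a, y (a+1), h (a+1), …, h (r-1), y r`
where (y 0, z) is a clean pair -/
structure LVM {V : Type} (G : SimpleGraph V) (S L : Set V) {r : ℕ} (y : Fin (r + 1) → V)
    (h : Fin r → V) (a : ℕ) : Prop where
  yinj : Function.Injective y
  hinj : Function.Injective h
  ycl : ∀ j, Cl G (r + 1) S L (y j)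
  hS : ∀ j, h j ∈ S
  a1 : 1 ≤ a
  a2 : a < r
  mat : ∀ j : Fin r, G.Adj (h j) (y j.succ)
  lef : ∀ j k : Fin r, (k : ℕ) = j + 1 → (k : ℕ) < a → G.Adj (h j) (y k.succ)
  rig : ∀ j k : Fin r, (k : ℕ) = j + 1 → a ≤ (j : ℕ) → G.Adj (h k) (y j.succ)
  ex : ∃ z, Clp G (r + 1) S L (y 0) z ∧ (∀ j, z ≠ y j) ∧
    (∀ j : Fin r, (j : ℕ) + 1 = a → G.Adj (h j) (y 0)) ∧
    ∀ j : Fin r, (j : ℕ) = a → G.Adj (h j) z

def T1c {V : Type} (G : SimpleGraph V) (r : ℕ) (S L : Set V) :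
    Set ((Fin (r + 1) → V) × (Fin (r + 1) → V) × Fin (r + 1)) :=
  {p | LV1 G S L p.1 p.2.1 (p.2.2 : ℕ) ∧ ∀ j, Cl G (r + 1) S L (p.1 j)}

def Ec {V : Type} (G : SimpleGraph V) (r : ℕ) (S L : Set V) :
    Set ((Fin (r + 1) → V) × (Fin r → V)) :=
  {p | LVE G S L p.1 p.2}

def Mc {V : Type} (G : SimpleGraph V) (r : ℕ) (S L : Set V) :
    Set ((Fin (r + 1) → V) × (Fin r → V) × Fin r) :=
  {p | LVM G S L p.1 p.2.1 (p.2.2 : ℕ)}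

/-- unclean lows -/
def S_UCS : Prop := ∀ (V : Type) [Fintype V] (G : SimpleGraph V) (l : ℕ) (S L : Set V),
  {x | x ∈ L ∧ ¬ Cl G l S L x}.ncard ≤ 2 ^ S.ncard * (8 * l)

/-- unclean pairs -/
def S_UCP : Prop := ∀ (V : Type) [Fintype V] (G : SimpleGraph V) (l D : ℕ) (S L : Set V),
  (∀ x ∈ L, dg G x ≤ D) →
  {p : V × V | p.1 ∈ L ∧ p.2 ∈ L ∧ G.Adj p.1 p.2 ∧ ¬ Clp G l S L p.1 p.2}.ncard
    ≤ 4 ^ S.ncard * (32 * l * D)

/-- directed paths of the first pattern -/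
def S_TR1 : Prop := ∀ (V : Type) [Fintype V] (G : SimpleGraph V) (r : ℕ) (S L : Set V),
  (∀ v ∈ S, v ∉ L) →
  {p : (Fin (r + 1) → V) × (Fin (r + 1) → V) | IsDP G (r + 1) p.1 p.2 ∧
    ∃ a, 1 ≤ a ∧ a < r + 1 ∧ Pat1 S L p.1 p.2 a}.ncard
  ≤ (T1c G r S L).ncard
    + (r + 1) ^ 2 * {x | x ∈ L ∧ ¬ Cl G (r + 1) S L x}.ncard * (Fintype.card V) ^ r
      * S.ncard ^ (r + 1)

/-- directed paths of the second pattern, clean part -/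
def S_TR2 : Prop := ∀ (V : Type) [Fintype V] (G : SimpleGraph V) (r : ℕ) (S L : Set V),
  Env G (r + 1) S L →
  {p : (Fin (r + 1) → V) × (Fin (r + 1) → V) | IsDP G (r + 1) p.1 p.2 ∧
    ∃ a : Fin (r + 1), Pat2 S L p.1 p.2 a ∧ Clp G (r + 1) S L (p.1 a) (p.2 a) ∧
      (∀ j, p.1 j ∈ L → Cl G (r + 1) S L (p.1 j)) ∧
      (∀ j, p.2 j ∈ L → Cl G (r + 1) S L (p.2 j))}.ncard
  ≤ 2 * (Ec G r S L).ncard + 2 * (Mc G r S L).ncard

/-- directed paths of the second pattern, remaining part -/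
def S_TR3 : Prop := ∀ (V : Type) [Fintype V] (G : SimpleGraph V) (r : ℕ) (S L : Set V), 1 ≤ r →
  NoLong G (r + 1) → (∀ v ∈ S, v ∉ L) →
  {p : (Fin (r + 1) → V) × (Fin (r + 1) → V) | IsDP G (r + 1) p.1 p.2 ∧
    (∃ a : Fin (r + 1), Pat2 S L p.1 p.2 a) ∧
    ¬ ∃ a : Fin (r + 1), Pat2 S L p.1 p.2 a ∧ Clp G (r + 1) S L (p.1 a) (p.2 a) ∧
      (∀ j, p.1 j ∈ L → Cl G (r + 1) S L (p.1 j)) ∧
      (∀ j, p.2 j ∈ L → Cl G (r + 1) S L (p.2 j))}.ncard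
  ≤ (r + 1) * {p : V × V | p.1 ∈ L ∧ p.2 ∈ L ∧ G.Adj p.1 p.2 ∧
        ¬ Clp G (r + 1) S L p.1 p.2}.ncard * S.ncard ^ r * (Fintype.card V) ^ r
    + (r + 1) * (4 * (r + 1) * Fintype.card V) * S.ncard ^ r *
        (r * {x | x ∈ L ∧ ¬ Cl G (r + 1) S L x}.ncard * (Fintype.card V) ^ (r - 1))

/-- Part I -/
def S_DEC : Prop := ∀ (r : ℕ), 3 ≤ r → ∀ δ : ℝ, 0 < δ → ∃ α : ℝ, 0 < α ∧ ∃ n₁ : ℕ,
  ∀ (V : Type) [Fintype V] (G : SimpleGraph V), n₁ ≤ Fintype.card V → NoLong G (r + 1) →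
  ∃ S L : Set V, Env G (r + 1) S L ∧ (∀ a ∈ S, α * (Fintype.card V : ℝ) ≤ (dg G a : ℝ)) ∧
    ((DP G (r + 1)).ncard : ℝ) ≤ ((T1c G r S L).ncard : ℝ) + 2 * ((Ec G r S L).ncard : ℝ)
      + 2 * ((Mc G r S L).ncard : ℝ) + δ * (Fintype.card V : ℝ) ^ (r + 1)

/-! ### Symmetrised counts -/

noncomputable def n1 {V : Type} (G : SimpleGraph V) (r : ℕ) (S L : Set V) (x : Fin (r + 1) → V) :
    ℕ :=
  {p : Equiv.Perm (Fin (r + 1)) × (Fin (r + 1) → V) × Fin (r + 1) |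
    (x ∘ p.1, p.2) ∈ T1c G r S L}.ncard

noncomputable def nE {V : Type} (G : SimpleGraph V) (r : ℕ) (S L : Set V) (x : Fin (r + 1) → V) :
    ℕ :=
  {p : Equiv.Perm (Fin (r + 1)) × (Fin r → V) | (x ∘ p.1, p.2) ∈ Ec G r S L}.ncard

noncomputable def nM {V : Type} (G : SimpleGraph V) (r : ℕ) (S L : Set V) (x : Fin (r + 1) → V) :
    ℕ :=
  {p : Equiv.Perm (Fin (r + 1)) × (Fin r → V) × Fin r | (x ∘ p.1, p.2) ∈ Mc G r S L}.ncard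

noncomputable def br {V : Type} (G : SimpleGraph V) (r : ℕ) (S L : Set V) (x : Fin (r + 1) → V) :
    ℝ := (n1 G r S L x : ℝ) / 2 + nE G r S L x + nM G r S L x

def S_SYM : Prop := ∀ (V : Type) [Fintype V] (G : SimpleGraph V) (r : ℕ) (S L : Set V),
  ∑ x : Fin (r + 1) → V, br G r S L x =
    ((r + 1).factorial : ℝ) * (((T1c G r S L).ncard : ℝ) / 2 + ((Ec G r S L).ncard : ℝ)
      + ((Mc G r S L).ncard : ℝ))

/-- special lows -/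
def Sg {V : Type} (G : SimpleGraph V) (l : ℕ) (S L : Set V) (y : V) : Prop :=
  Cl G l S L y ∧ (∃ v, Ty G S y = {v} ∧ ∀ w, ¬ (HG G l S L).Adj v w) ∧ ∀ z, ¬ Clp G l S L y z

/-- label of a low: the hubs connected to its type in the hub graph -/
def lab {V : Type} (G : SimpleGraph V) (l : ℕ) (S L : Set V) (x : V) : Set V :=
  {b | ∃ a ∈ Ty G S x, (HG G l S L).Reachable a b}

/-- good labels -/
def Good {V : Type} (G : SimpleGraph V) (r : ℕ) (S L : Set V) (D : Set V) : Prop :=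
  D.ncard = r ∧ ∀ b ∈ D, ¬ PE G (r + 1) S L b

/-- two and two -/
def P22 {V ι : Type} {r : ℕ} (c : V → ι) (x : Fin (r + 1) → V) : Prop :=
  r = 3 ∧ ∃ D D', D ≠ D' ∧ {k | c (x k) = D}.ncard = 2 ∧ {k | c (x k) = D'}.ncard = 2

/-- the constant for tuples without special lows -/
noncomputable def kap (r : ℕ) : ℝ := if r = 4 then 3 / 8 else if r = 5 then 2 / 5 else 1 / 3

noncomputable def the (r : ℕ) : ℝ := if r = 3 then 1 / 9 else 0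

/-- two special lows -/
def S_k1 : Prop := ∀ (V : Type) [Fintype V] (G : SimpleGraph V) (r : ℕ) (S L : Set V),
  Env G (r + 1) S L → ∀ (x : Fin (r + 1) → V) (j k : Fin (r + 1)), j ≠ k →
  Sg G (r + 1) S L (x j) → Sg G (r + 1) S L (x k) → br G r S L x = 0

/-- one special low, not rich -/
def S_k2a : Prop := ∀ (V : Type) [Fintype V] (G : SimpleGraph V) (r : ℕ) (S L : Set V) (α : ℝ),
  Env G (r + 1) S L → (∀ a ∈ S, α * (Fintype.card V : ℝ) ≤ (dg G a : ℝ)) → ¬ Rich G (r + 1) α →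
  ∀ (x : Fin (r + 1) → V) (j : Fin (r + 1)),
  Sg G (r + 1) S L (x j) → br G r S L x ≤ (1 - 1 / (r : ℝ)) * (r.factorial : ℝ) ^ 2

/-- one special low, the others not in one good class -/
def S_k2b : Prop := ∀ (V : Type) [Fintype V] (G : SimpleGraph V) (r : ℕ) (S L : Set V),
  Env G (r + 1) S L → ∀ (x : Fin (r + 1) → V) (j : Fin (r + 1)),
  Sg G (r + 1) S L (x j) →
  ¬ (∃ D, Good G r S L D ∧ ∀ k, k ≠ j → lab G (r + 1) S L (x k) = D) →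
  br G r S L x ≤ (1 / (r : ℝ)) * (r.factorial : ℝ) ^ 2

/-- one special low, mixed -/
def S_k2c : Prop := ∀ (V : Type) [Fintype V] (G : SimpleGraph V) (r : ℕ) (S L : Set V),
  Env G (r + 1) S L → ∀ (x : Fin (r + 1) → V) (j : Fin (r + 1)),
  Sg G (r + 1) S L (x j) →
  ¬ (∃ D, Good G r S L D ∧ ∀ k, k ≠ j → lab G (r + 1) S L (x k) = D) →
  (∃ k, k ≠ j ∧ Good G r S L (lab G (r + 1) S L (x k))) →
  br G r S L x = 0

/-- no special low -/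
def S_k3a : Prop := ∀ (V : Type) [Fintype V] (G : SimpleGraph V) (r : ℕ) (S L : Set V),
  Env G (r + 1) S L → ∀ (x : Fin (r + 1) → V), (∀ j, ¬ Sg G (r + 1) S L (x j)) →
  br G r S L x ≤ (kap r + if P22 (lab G (r + 1) S L) x then the r else 0)
    * (r.factorial : ℝ) ^ 2

/-- one good class -/
def S_k3b : Prop := ∀ (V : Type) [Fintype V] (G : SimpleGraph V) (r : ℕ) (S L : Set V),
  Env G (r + 1) S L → ∀ (x : Fin (r + 1) → V),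
  (∃ D, Good G r S L D ∧ ∀ k, lab G (r + 1) S L (x k) = D) → br G r S L x = 0

/-! ### Final inequality and summation -/

noncomputable def rho (r : ℕ) : ℝ := ((r : ℝ) / ((r : ℝ) + 1)) ^ r

def S_FIN : Prop := ∀ (r : ℕ), 3 ≤ r → ∀ (ι : Type) (s : Finset ι) (g : ι → ℝ) (a b k1 k' k'' : ℝ),
  0 ≤ a → 0 ≤ b → (∀ i ∈ s, 0 ≤ g i) → a + b + ∑ i ∈ s, g i ≤ 1 → 0 ≤ k1 → k1 ≤ 1 →
  0 < k' → k' ≤ k'' → 1 / (r : ℝ) ≤ k'' →
  ((r : ℝ) + 1) * a * (k1 * ∑ i ∈ s, g i ^ r + b ^ r / (r : ℝ)) + k'' * (1 - a) ^ (r + 1)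
    - k' * ∑ i ∈ s, g i ^ (r + 1) ≤ max (k1 * rho r + (k'' - k')) k''

def S_SUM : Prop := ∀ (r : ℕ), 3 ≤ r → ∀ (V : Type) [Fintype V] (ι : Type) (A W : Set V)
  (c : V → ι) (Gd : Set ι) (K : (Fin (r + 1) → V) → ℝ) (k1 k' th : ℝ),
  (∀ v ∈ A, v ∉ W) → 0 ≤ k1 → k1 ≤ 1 → 0 < k' → 1 / (r : ℝ) ≤ k' → 0 ≤ th → (r = 3 ∨ th = 0) →
  (∀ x, (∃ j, x j ∉ A ∧ x j ∉ W) → K x ≤ 0) →
  (∀ x j k, j ≠ k → x j ∈ A → x k ∈ A → K x ≤ 0) →
  (∀ x j, x j ∈ A → K x ≤ k1) →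
  (∀ x j, x j ∈ A → ¬ (∃ D ∈ Gd, ∀ k, k ≠ j → c (x k) = D) → K x ≤ 1 / (r : ℝ)) →
  (∀ x j, x j ∈ A → ¬ (∃ D ∈ Gd, ∀ k, k ≠ j → c (x k) = D) → (∃ k, k ≠ j ∧ c (x k) ∈ Gd) →
    K x ≤ 0) →
  (∀ x, (∀ j, x j ∉ A) → K x ≤ k' + if P22 c x then th else 0) →
  (∀ x, (∃ D ∈ Gd, ∀ k, c (x k) = D) → K x ≤ 0) →
  ∑ x : Fin (r + 1) → V, K x
    ≤ max (k1 * rho r + 3 / 4 * th) (k' + 3 / 4 * th) * (Fintype.card V : ℝ) ^ (r + 1)

/-- numerical facts -/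
def S_NUM : Prop := ∀ (r : ℕ), 3 ≤ r →
  max ((1 - 1 / (r : ℝ)) * rho r + 3 / 4 * the r) (kap r + 3 / 4 * the r) < rho r ∧
  cc (r + 1) = (r.factorial : ℝ) ^ 2 / ((r + 1).factorial : ℝ) * rho r

/-! ### Finite lemmas -/

/-- Hamiltonian sequence -/
def Ham {Q : Type} {r : ℕ} (R : SimpleGraph Q) (e : Fin r ≃ Q) : Prop :=
  ∀ j k : Fin r, (k : ℕ) = j + 1 → R.Adj (e j) (e k)

/-- sequence with one break, between positions `i` and `i+1` -/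
def Cov {Q : Type} {r : ℕ} (R : SimpleGraph Q) (i : ℕ) (e : Fin r ≃ Q) : Prop :=
  i + 1 < r ∧ ∀ j k : Fin r, (k : ℕ) = j + 1 → (j : ℕ) ≠ i → R.Adj (e j) (e k)

/-- no Hamiltonian sequence -/
def NT {Q : Type} (r : ℕ) (R : SimpleGraph Q) : Prop := ∀ e : Fin r ≃ Q, ¬ Ham R e

/-- Hamiltonian sequences from `A` when none ends in `U` -/
def S_E2 : Prop := ∀ (Q : Type) [Fintype Q] (r : ℕ) (R : SimpleGraph Q) (A U : Set Q), 2 ≤ r →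
  Fintype.card Q = r → U.Nonempty →
  (∀ e : Fin r ≃ Q, Ham R e → (∀ j : Fin r, (j : ℕ) = 0 → e j ∈ A) →
    ∀ j : Fin r, (j : ℕ) + 1 = r → e j ∉ U) →
  {e : Fin r ≃ Q | Ham R e ∧ ∀ j : Fin r, (j : ℕ) = 0 → e j ∈ A}.ncard ≤ (r - 1).factorial

/-- the same from one vertex `a` to another vertex `u` -/
def S_E2b : Prop := ∀ (Q : Type) [Fintype Q] (r : ℕ) (R : SimpleGraph Q) (a u : Q), 2 ≤ r →
  Fintype.card Q = r → a ≠ u →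
  (∀ e : Fin r ≃ Q, Ham R e → (∀ j : Fin r, (j : ℕ) = 0 → e j = a) →
    ∀ j : Fin r, (j : ℕ) + 1 = r → e j ≠ u) →
  {e : Fin r ≃ Q | Ham R e ∧ ∀ j : Fin r, (j : ℕ) = 0 → e j = a}.ncard ≤ (r - 2).factorial

/-- number of covers -/
def S_CIRC : Prop := ∀ (Q : Type) [Fintype Q] (l : ℕ) (R : SimpleGraph Q), 3 ≤ l →
  Fintype.card Q = l → NT l R →
  {p : (Fin l ≃ Q) × Fin l | Cov R (p.2 : ℕ) p.1}.ncard ≤ 2 * (l - 1).factorial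

/-- number of covers with `v` just before the break, left side of size at least two -/
def S_CIRCv : Prop := ∀ (Q : Type) [Fintype Q] (l : ℕ) (R : SimpleGraph Q) (v : Q), 3 ≤ l →
  Fintype.card Q = l → NT l R →
  2 * {p : (Fin l ≃ Q) × Fin l | Cov R (p.2 : ℕ) p.1 ∧ 1 ≤ (p.2 : ℕ) ∧ p.1 p.2 = v}.ncard
    ≤ (l - 1).factorial

/-- number of covers with left side `v` alone, `v` not isolated -/
def S_CIRC0 : Prop := ∀ (Q : Type) [Fintype Q] (l : ℕ) (R : SimpleGraph Q) (v : Q), 3 ≤ l →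
  Fintype.card Q = l → NT l R → (∃ w, R.Adj v w) →
  {e : Fin l ≃ Q | Cov R 0 e ∧ ∀ j : Fin l, (j : ℕ) = 0 → e j = v}.ncard ≤ (l - 2).factorial

/-- insertion lemma -/
def S_INS : Prop := ∀ (Q : Type) [Fintype Q] (l : ℕ) (R : SimpleGraph Q), Fintype.card Q = l →
  NT l R → ∀ (i : ℕ) (e : Fin l ≃ Q), Cov R i e →
  (∃ s : Fin l, (s : ℕ) ≤ i ∧
    (∀ j k : Fin l, (k : ℕ) = j + 1 → i < (j : ℕ) → ¬ (R.Adj (e s) (e j) ∧ R.Adj (e s) (e k))) ∧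
    ∀ j : Fin l, (j : ℕ) + 1 = l → ¬ R.Adj (e s) (e j)) ∧
  (∃ s : Fin l, i < (s : ℕ) ∧
    (∀ j k : Fin l, (k : ℕ) = j + 1 → (k : ℕ) ≤ i → ¬ (R.Adj (e s) (e j) ∧ R.Adj (e s) (e k))) ∧
    ∀ j : Fin l, (j : ℕ) = 0 → ¬ R.Adj (e s) (e j))

/-- leading configurations at the level of types -/
def Lead1 {Q : Type} {l : ℕ} (T : Fin l → Set Q) (e : Fin l ≃ Q) (i : ℕ)
    (t : Equiv.Perm (Fin l)) : Prop :=
  i + 1 < l ∧ (∀ j, e j ∈ T (t j)) ∧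
  (∀ j k : Fin l, (k : ℕ) = j + 1 → (k : ℕ) ≤ i → e j ∈ T (t k)) ∧
  (∀ j k : Fin l, (k : ℕ) = j + 1 → i < (j : ℕ) → e k ∈ T (t j))

/-- all types are cliques -/
def Clq {Q : Type} {m : ℕ} (R : SimpleGraph Q) (T : Fin m → Set Q) : Prop :=
  ∀ x, ∀ a ∈ T x, ∀ b ∈ T x, a ≠ b → R.Adj a b

noncomputable def M1 {Q : Type} {l : ℕ} (T : Fin l → Set Q) : ℕ :=
  {p : (Fin l ≃ Q) × Fin l × Equiv.Perm (Fin l) | Lead1 T p.1 (p.2.1 : ℕ) p.2.2}.ncard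

/-- degree of a hub in the tuple -/
noncomputable def dX {Q : Type} {l : ℕ} (T : Fin l → Set Q) (h : Q) : ℕ := {x | h ∈ T x}.ncard

/-- placements when there is no pendant hub -/
def S_PL : Prop := ∀ (Q : Type) [Fintype Q] (l : ℕ) (R : SimpleGraph Q) (T : Fin l → Set Q),
  4 ≤ l → Fintype.card Q = l → NT l R → Clq R T → (∀ h, 2 ≤ dX T h) →
  ∀ (i : ℕ) (e : Fin l ≃ Q), Cov R i e →
  {t : Equiv.Perm (Fin l) | Lead1 T e i t}.ncard ≤ 2 * (l - 2).factorial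

/-- no pendant hub -/
def S_K1a : Prop := ∀ (Q : Type) [Fintype Q] (l : ℕ) (R : SimpleGraph Q) (T : Fin l → Set Q),
  4 ≤ l → Fintype.card Q = l → NT l R → Clq R T → (∀ h, 2 ≤ dX T h) →
  M1 T ≤ 4 * (l - 1).factorial * (l - 2).factorial

/-- exactly one pendant hub, `l ≥ 6` -/
def S_K1b : Prop := ∀ (Q : Type) [Fintype Q] (l : ℕ) (R : SimpleGraph Q) (T : Fin l → Set Q)
  (v : Q), 6 ≤ l → Fintype.card Q = l → NT l R → Clq R T → (∃ w, R.Adj v w) →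
  (∀ h, h ≠ v → 2 ≤ dX T h) → dX T v = 1 →
  10 * M1 T ≤ 20 * (l - 2).factorial * (l - 1).factorial + 3 * (l - 1).factorial ^ 2

/-- exactly one pendant hub, `l = 5` -/
def S_K1b5 : Prop := ∀ (Q : Type) [Fintype Q] (R : SimpleGraph Q) (T : Fin 5 → Set Q)
  (v : Q), Fintype.card Q = 5 → NT 5 R → Clq R T → (∃ w, R.Adj v w) →
  (∀ h, h ≠ v → 2 ≤ dX T h) → dX T v = 1 → M1 T ≤ 432

/-- two pendant hubs -/
def S_K1c : Prop := ∀ (Q : Type) [Fintype Q] (l : ℕ) (R : SimpleGraph Q) (T : Fin l → Set Q)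
  (v v' : Q), 4 ≤ l → Fintype.card Q = l → NT l R → Clq R T → v ≠ v' → dX T v ≤ 1 → dX T v' ≤ 1 →
  M1 T ≤ 2 * (l - 1).factorial * (l - 2).factorial

/-- `l = 5`, no pendant hub -/
def S_K1a5 : Prop := ∀ (Q : Type) [Fintype Q] (R : SimpleGraph Q) (T : Fin 5 → Set Q),
  Fintype.card Q = 5 → NT 5 R → Clq R T → (∀ h, 2 ≤ dX T h) → M1 T ≤ 432

/-- `l = 4` -/
def S_K14 : Prop := ∀ (Q : Type) [Fintype Q] (R : SimpleGraph Q) (T : Fin 4 → Set Q),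
  Fintype.card Q = 4 → NT 4 R → Clq R T → (∀ h, ∃ w, R.Adj h w) →
  M1 T ≤ 24 ∨ (M1 T ≤ 32 ∧ ∃ (a b c d : Q) (t : Equiv.Perm (Fin 4)),
    a ≠ b ∧ a ≠ c ∧ a ≠ d ∧ b ≠ c ∧ b ≠ d ∧ c ≠ d ∧ R.Adj a b ∧ R.Adj c d ∧
    (T (t 0)).Nonempty ∧ (T (t 1)).Nonempty ∧ (T (t 2)).Nonempty ∧ (T (t 3)).Nonempty ∧
    T (t 0) ⊆ {a, b} ∧ T (t 1) ⊆ {a, b} ∧ T (t 2) ⊆ {c, d} ∧ T (t 3) ⊆ {c, d})

/-- the bound for all lengths, no isolated hub -/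
def S_K1 : Prop := ∀ (Q : Type) [Fintype Q] (r : ℕ) (R : SimpleGraph Q) (T : Fin (r + 1) → Set Q),
  4 ≤ r → Fintype.card Q = r + 1 → NT (r + 1) R → Clq R T → (∀ h, ∃ w, R.Adj h w) →
  (M1 T : ℝ) / 2 ≤ kap r * (r.factorial : ℝ) ^ 2

/-- second kind, cluster at the end -/
def LeadE {Q : Type} {r : ℕ} (T : Fin (r + 1) → Set Q) (U : Set Q) (e : Fin r ≃ Q)
    (t : Equiv.Perm (Fin (r + 1))) : Prop :=
  T (t 0) ⊆ U ∧ (∀ j : Fin r, (j : ℕ) = 0 → e j ∈ U) ∧ (∀ j : Fin r, e j ∈ T (t j.succ)) ∧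
  (∀ j k : Fin r, (k : ℕ) = j + 1 → e k ∈ T (t j.succ))

/-- second kind, cluster in the middle, `PL` is the pair link relation -/
def LeadM {Q : Type} {r : ℕ} (T : Fin (r + 1) → Set Q) (U : Set Q) (PL : Q → Q → Prop)
    (e : Fin r ≃ Q) (a : ℕ) (t : Equiv.Perm (Fin (r + 1))) : Prop :=
  1 ≤ a ∧ a < r ∧ T (t 0) ⊆ U ∧
  (∀ j k : Fin r, (k : ℕ) = j + 1 → (k : ℕ) = a → PL (e j) (e k)) ∧
  (∀ j : Fin r, e j ∈ T (t j.succ)) ∧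
  (∀ j k : Fin r, (k : ℕ) = j + 1 → (k : ℕ) < a → e j ∈ T (t k.succ)) ∧
  (∀ j k : Fin r, (k : ℕ) = j + 1 → a ≤ (j : ℕ) → e k ∈ T (t j.succ))

/-- hypotheses on the hub graph for the second kind -/
structure Hyp2 {Q : Type} (r : ℕ) (R : SimpleGraph Q) (U : Set Q) (PL : Q → Q → Prop) : Prop where
  pl : ∀ a b, PL a b → a ∈ U ∧ b ∈ U
  c1 : ∀ e : Fin r ≃ Q, Ham R e → ∀ j k : Fin r, (j : ℕ) = 0 → (k : ℕ) + 1 = r →
    ¬ (e j ∈ U ∧ e k ∈ U)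
  c2 : ∀ (e : Fin r ≃ Q) (a : ℕ), 1 ≤ a → a < r →
    (∀ j k : Fin r, (k : ℕ) = j + 1 → (k : ℕ) ≠ a → R.Adj (e j) (e k)) →
    (∀ j k : Fin r, (k : ℕ) = j + 1 → (k : ℕ) = a → PL (e j) (e k)) →
    ∀ j k : Fin r, (j : ℕ) = 0 → (k : ℕ) + 1 = r → e j ∉ U ∧ e k ∉ U ∧ ¬ R.Adj (e j) (e k)
  c3 : ∀ e : Fin r ≃ Q, Ham R e → ∀ j k j' k' : Fin r, (k : ℕ) = j + 1 → (k' : ℕ) = j' + 1 →
    j ≠ j' → PL (e j) (e k) → PL (e j') (e k') → False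

noncomputable def ME {Q : Type} {r : ℕ} (T : Fin (r + 1) → Set Q) (U : Set Q) : ℕ :=
  {p : (Fin r ≃ Q) × Equiv.Perm (Fin (r + 1)) | LeadE T U p.1 p.2}.ncard

noncomputable def MM {Q : Type} {r : ℕ} (T : Fin (r + 1) → Set Q) (U : Set Q)
    (PL : Q → Q → Prop) : ℕ :=
  {p : (Fin r ≃ Q) × Fin r × Equiv.Perm (Fin (r + 1)) | LeadM T U PL p.1 (p.2.1 : ℕ) p.2.2}.ncard

/-- number of lows with type inside `U` -/
noncomputable def nU {Q : Type} {r : ℕ} (T : Fin (r + 1) → Set Q) (U : Set Q) : ℕ :=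
  {x | T x ⊆ U}.ncard

def S_KE : Prop := ∀ (Q : Type) [Fintype Q] (r : ℕ) (R : SimpleGraph Q) (U : Set Q)
  (PL : Q → Q → Prop) (T : Fin (r + 1) → Set Q), 3 ≤ r → Fintype.card Q = r → Clq R T →
  Hyp2 r R U PL →
  (nU T U = 0 → ME T U = 0) ∧ (nU T U = 1 → ME T U ≤ (r - 1).factorial * r.factorial) ∧
  (2 ≤ nU T U → 4 * ME T U ≤ r.factorial ^ 2)

def S_KM : Prop := ∀ (Q : Type) [Fintype Q] (r : ℕ) (R : SimpleGraph Q) (U : Set Q)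
  (PL : Q → Q → Prop) (T : Fin (r + 1) → Set Q), 3 ≤ r → Fintype.card Q = r → Clq R T →
  Hyp2 r R U PL →
  (nU T U = 0 → MM T U PL = 0) ∧
  (nU T U = 1 → 6 * MM T U PL ≤ (r - 2) * (r - 3) * (r - 2).factorial * r.factorial) ∧
  (2 ≤ nU T U → 12 * MM T U PL ≤ r.factorial ^ 2)

def S_K2 : Prop := ∀ (Q : Type) [Fintype Q] (r : ℕ) (R : SimpleGraph Q) (U : Set Q)
  (PL : Q → Q → Prop) (T : Fin (r + 1) → Set Q), 3 ≤ r → Fintype.card Q = r → Clq R T →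
  Hyp2 r R U PL → 3 * (ME T U + MM T U PL) ≤ r.factorial ^ 2

/-- single crossing: `e 0` in `A`, slots `{e j, e (j+1)}` and `{e (r-1)}` -/
def LeadS {Q : Type} {r : ℕ} (T : Fin r → Set Q) (A : Set Q) (e : Fin r ≃ Q)
    (t : Equiv.Perm (Fin r)) : Prop :=
  (∀ j : Fin r, (j : ℕ) = 0 → e j ∈ A) ∧ (∀ j : Fin r, e j ∈ T (t j)) ∧
  (∀ j k : Fin r, (k : ℕ) = j + 1 → e k ∈ T (t j))

noncomputable def MS {Q : Type} {r : ℕ} (T : Fin r → Set Q) (A : Set Q) : ℕ :=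
  {p : (Fin r ≃ Q) × Equiv.Perm (Fin r) | LeadS T A p.1 p.2}.ncard

def S_SC1 : Prop := ∀ (Q : Type) [Fintype Q] (r : ℕ) (A : Set Q) (T : Fin r → Set Q), 2 ≤ r →
  Fintype.card Q = r → (A ≠ Set.univ ∨ ∀ x, T x ≠ Set.univ) →
  r * MS T A ≤ (r - 1) * r.factorial ^ 2

def S_SC2 : Prop := ∀ (Q : Type) [Fintype Q] (r : ℕ) (R : SimpleGraph Q) (A U : Set Q)
  (T : Fin r → Set Q), 2 ≤ r → Fintype.card Q = r → Clq R T → U.Nonempty →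
  (∀ e : Fin r ≃ Q, Ham R e → (∀ j : Fin r, (j : ℕ) = 0 → e j ∈ A) →
    ∀ j : Fin r, (j : ℕ) + 1 = r → e j ∉ U) →
  MS T A ≤ (r - 1).factorial * r.factorial

end Pool.Agent.Y494.PK
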