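import Pool.Agent.Y494.PK.Main
import Pool.Agent.Y494.PK.NR
import Pool.Agent.Y494.PK.KS
import Pool.Agent.Y494.PK.Num
import Pool.Agent.Y494.PK.FinIneq
import Pool.Agent.Y494.PK.Circ0
import Pool.Agent.Y306.PK.GG
import Pool.Agent.Y306.PK.J1
import Pool.Agent.Y306.PK.Sym
import Pool.Agent.Y306.PK.UC
import Pool.Agent.Y306.PK.TR1
import Pool.Agent.Y306.PK.EX1
import Pool.Agent.Y348.PK.Circ
import Pool.Agent.Y348.PK.Dec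
import Pool.Agent.Y348.PK.Emb
import Pool.Agent.Y348.PK.Ins
import Pool.Agent.Y348.PK.TQa
import Pool.Agent.Y348.PK.TQs
import Pool.Agent.Y388.PK.E2
import Pool.Agent.Y388.PK.KE
import Pool.Agent.Y388.PK.KM
import Pool.Agent.Y388.PK.Sub1
import Pool.Agent.Y43.PK.A34
import Pool.Agent.Y43.PK.A5
import Pool.Agent.Y43.PK.B1
import Pool.Agent.Y43.PK.Gap
import Pool.Agent.Y433.PK.K14
import Pool.Agent.Y433.PK.K1a5
import Pool.Agent.Y433.PK.K1b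
import Pool.Agent.Y433.PK.K1c
import Pool.Agent.Y433.PK.Pl
import Pool.Agent.Y641.PK.Sub
import Pool.Agent.Y641.PK.TQ2
import Pool.Agent.Y641.PK.TR2
import Pool.Agent.Y641.PK.TR3
import Pool.Agent.Y893.PK.Arith
import Pool.Agent.Y893.PK.Top
import Pool.Agent.Y893.PK.Sum

/-!
Project PK (MP_490135_co): assembly.
-/

namespace Pool.Agent.Y494.PK

theorem sE2 : S_E2 := Y388.PK.e2
theorem sE2b : S_E2b := Y388.PK.e2b
theorem sEMB : S_EMB := Pool.Agent.Y348.PK.Emb.emb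
theorem sCAPQ : S_CAPQ := Pool.Agent.Y348.PK.Emb.capq
theorem sCAP1 : S_CAP1 := Pool.Agent.Y348.PK.Emb.cap1
theorem sCAP2 : S_CAP2 := Pool.Agent.Y348.PK.Emb.cap2
theorem sP1V : S_P1V := Y388.PK.p1v sCAP1
theorem sSUB1 : S_SUB1 := Y388.PK.sub1 sCAP1
theorem sDIS : S_DIS := Y388.PK.dis sP1V
theorem sSG1 : S_SG1 := Y388.PK.sg1
theorem sISO : S_ISO := Y388.PK.iso sCAP1 sCAP2 sSUB1
theorem sSGE : S_SGE := Y388.PK.sge sCAP1 sCAP2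
theorem sSUBE : S_SUBE := Y641.PK.sube sCAPQ sCAP2
theorem sSUBM : S_SUBM := Y641.PK.subm sCAP1
theorem sTQ1 : S_TQ1 := Pool.Agent.Y348.PK.TQa.tq1 sP1V sSUB1 sISO
theorem sTQ2 : S_TQ2 := Y641.PK.tq2 sCAP1 sCAP2 sSUBE sSUBM
theorem sTQS : S_TQS := Pool.Agent.Y348.PK.TQs.tqs sCAP1 sSUB1 sSG1 sSGE
theorem sSC1 : S_SC1 := Y388.PK.sc1
theorem sSC2 : S_SC2 := Y388.PK.sc2 sE2
theorem sINS : S_INS := Pool.Agent.Y348.PK.Ins.ins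
theorem sCIRC : S_CIRC := Pool.Agent.Y348.PK.Circ.circ
theorem sCIRCv : S_CIRCv := Pool.Agent.Y348.PK.Circ.circv
theorem sCIRC0 : S_CIRC0 := circ0 sE2
theorem sPL : S_PL := Y433.PK.pl sINS
theorem sK1a : S_K1a := Y433.PK.k1a sCIRC sPL
theorem sK1b : S_K1b := Y433.PK.k1b sCIRCv sCIRC0 sINS
theorem sK1b5 : S_K1b5 := Y433.PK.k1b5 sCIRCv sCIRC0 sINS
theorem sK1c : S_K1c := Y433.PK.k1c
theorem sK1a5 : S_K1a5 := Y433.PK.k1a5 sINS sPL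
theorem sK14 : S_K14 := Y433.PK.k14
theorem sK1 : S_K1 := k1all sK1a sK1b sK1b5 sK1c sK1a5
theorem sKE : S_KE := Y388.PK.ke sE2 sE2b
theorem sKM : S_KM := Y388.PK.km
theorem sK2 : S_K2 := Y388.PK.k2all sKE sKM
theorem sk1 : S_k1 := k1 sSG1 sSGE
theorem sk2a : S_k2a := k2a sTQS sSC1
theorem sk2b : S_k2b := k2b sTQS sSC2
theorem sk2c : S_k2c := k2c sTQS
theorem sk3a : S_k3a := k3a sTQ1 sTQ2 sDIS sK1 sK14 sK2
theorem sk3b : S_k3b := k3b sTQ1 sTQ2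
theorem sA3 : S_A3 := Y43.PK.a3
theorem sA4 : S_A4 := Y43.PK.a4
theorem sA5a : S_A5a := Y43.PK.a5a sA3
theorem sA5b : S_A5b := Y43.PK.a5b sA3
theorem sA5 : S_A5 := Y43.PK.a5 sA3
theorem sGAP : S_GAP := Y43.PK.gap sA5
theorem sB1 : S_B1 := Y43.PK.b1 sA4 sA5a sA5b
theorem sUCS : S_UCS := Y306.PK.ucs
theorem sUCP : S_UCP := Y306.PK.ucp
theorem sTR1 : S_TR1 := Y306.PK.tr1
theorem sTR2 : S_TR2 := Y641.PK.tr2 sEMB sCAPQ
theorem sTR3 : S_TR3 := Y641.PK.tr3 sA3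
theorem sDEC : S_DEC := Pool.Agent.Y348.PK.Dec.dec sA3 sGAP sB1 sUCS sUCP sTR1 sTR2 sTR3
theorem sSYM : S_SYM := Y306.PK.sym
theorem sSUM : S_SUM := Y893.PK.sum fin
theorem sNR : ∀ l, 4 ≤ l → S_NR l :=
  nr sDEC sSYM sk1 sk2a sk2b sk2c sk3a sk3b sSUM num

end Pool.Agent.Y494.PK
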