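import Pool.Agent.Y494.PK.All
import Pool.Agent.Y388.PK.Exact

/-!
Project PK (MP_490135_co): final theorem on directed paths and copies.
-/

namespace Pool.Agent.Y494.PK

open SimpleGraph

theorem sTOP : ∀ l, 4 ≤ l → S_TOP l := fun l hl =>
  Y893.PK.top l hl (sNR l hl) Y388.PK.exact Y893.PK.ppub Y893.PK.pplb

theorem mainTheorem : ∀ l : ℕ, 4 ≤ l → ∃ n₀ : ℕ, ∀ n ≥ n₀, ∃ m : ℕ, m ≤ n - l ∧
      (∀ m' ≤ n - l, (pathGraph (2 * l + 1)).Free (GG n l m')) ∧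
      (∀ m' ≤ n - l, (GG n l m').copyCount (pathGraph (2 * l)) ≤
        (GG n l m).copyCount (pathGraph (2 * l))) ∧
      ∀ G : SimpleGraph (Fin n), (pathGraph (2 * l + 1)).Free G →
        G.copyCount (pathGraph (2 * l)) ≤ (GG n l m).copyCount (pathGraph (2 * l)) :=
  main sTOP Y306.PK.gg Y306.PK.j1a Y306.PK.j1b

end Pool.Agent.Y494.PK
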