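import Pool.Agent.Y494.PK.Stm

/-!
Project PK (MP_490135_co): from directed paths to copies.
-/

namespace Pool.Agent.Y494.PK

open Classical SimpleGraph

theorem main (hTOP : ∀ l, 4 ≤ l → S_TOP l) (hGG : S_GG) (hA : S_J1a) (hB : S_J1b) :
    ∀ l : ℕ, 4 ≤ l → ∃ n₀ : ℕ, ∀ n ≥ n₀, ∃ m : ℕ, m ≤ n - l ∧
      (∀ m' ≤ n - l, (pathGraph (2 * l + 1)).Free (GG n l m')) ∧
      (∀ m' ≤ n - l, (GG n l m').copyCount (pathGraph (2 * l)) ≤
        (GG n l m).copyCount (pathGraph (2 * l))) ∧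
      ∀ G : SimpleGraph (Fin n), (pathGraph (2 * l + 1)).Free G →
        G.copyCount (pathGraph (2 * l)) ≤ (GG n l m).copyCount (pathGraph (2 * l)) := by
  intro l hl
  obtain ⟨n₀, hn₀⟩ := hTOP l hl
  refine ⟨max n₀ l, fun n hn => ?_⟩
  have hn1 : n₀ ≤ n := le_trans (le_max_left _ _) hn
  have hn2 : l ≤ n := le_trans (le_max_right _ _) hn
  obtain ⟨m, hm, hmax⟩ := Finset.exists_max_image (Finset.range (n - l + 1))
    (fun m => (GG n l m).copyCount (pathGraph (2 * l))) ⟨0, by simp⟩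
  rw [Finset.mem_range] at hm
  refine ⟨m, by omega, ?_, ?_, ?_⟩
  · intro m' hm'
    exact (hB n l _).2 (hGG n l m' (by omega) (by omega)).1
  · intro m' hm'
    exact hmax m' (by rw [Finset.mem_range]; omega)
  · intro G hG
    obtain ⟨m0, hm0, hle⟩ := hn₀ n hn1 G ((hB n l G).1 hG)
    have h1 := hA n l (by omega) G
    have h2 := hA n l (by omega) (GG n l m0)
    have h3 := (hGG n l m0 (by omega) (by omega)).2
    have h4 := hmax m0 (by rw [Finset.mem_range]; omega)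
    omega

end Pool.Agent.Y494.PK
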